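import Pool.Agent.V8H61.MF.FlowDef

/-! # An ergodic flow has an ergodic time-`a` map -/

set_option autoImplicit false
set_option linter.unusedSectionVars false

open Set Filter Topology MeasureTheory intervalIntegral

namespace Pool.Agent.V8H61.MF

variable {Z : Type*} [TopologicalSpace Z] [SecondCountableTopology Z] [MeasurableSpace Z]
  [BorelSpace Z] {ψ : ℝ → Z → Z} {m : Measure Z}

theorem flow_meas (hψ : IsFlow ψ) : Measurable fun q : ℝ × Z => ψ q.1 q.2 := hψ.cont.measurable

/-- frequencies -/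
def Freq (ψ : ℝ → Z → Z) (m : Measure Z) : Set ℝ :=
  {α | ∃ E : Z → ℂ, Measurable E ∧ (∀ x, ‖E x‖ ≤ 1) ∧
    (∀ r x, E (ψ r x) = Complex.exp (2 * Real.pi * Complex.I * (α * r : ℝ)) * E x) ∧
    ¬ E =ᵐ[m] 0}

/-- the complex indicator -/
noncomputable def chi (A : Set Z) (x : Z) : ℂ := A.indicator (fun _ => (1 : ℂ)) x

theorem chi_norm (A : Set Z) (x : Z) : ‖chi A x‖ ≤ 1 := by
  unfold chi
  by_cases hx : x ∈ A
  · simp [hx]
  · simp [hx]

theorem chi_meas {A : Set Z} (hA : MeasurableSet A) : Measurable (chi A) :=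
  measurable_const.indicator hA

/-- Fourier coefficients of the orbits -/
noncomputable def ck (ψ : ℝ → Z → Z) (A : Set Z) (a : ℝ) (k : ℤ) (x : Z) : ℂ :=
  (1 / a : ℝ) • ∫ s in (0 : ℝ)..a,
    Complex.exp (-(2 * Real.pi * Complex.I * k * s / a)) * chi A (ψ s x)

theorem ck_meas (hψ : IsFlow ψ) {A : Set Z} (hA : MeasurableSet A) {a : ℝ} (ha : 0 < a) (k : ℤ) :
    Measurable (ck ψ A a k) := by
  have h1 : Measurable fun q : Z × ℝ =>
      Complex.exp (-(2 * Real.pi * Complex.I * k * q.2 / a)) * chi A (ψ q.2 q.1) := by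
    refine Measurable.mul ?_ ?_
    · have : Continuous fun q : Z × ℝ =>
        Complex.exp (-(2 * Real.pi * Complex.I * k * (q.2 : ℂ) / a)) := by fun_prop
      exact this.measurable
    · exact (chi_meas hA).comp ((flow_meas hψ).comp (measurable_snd.prodMk measurable_fst))
  have h2 : Measurable fun x : Z => ∫ s in (0 : ℝ)..a,
      Complex.exp (-(2 * Real.pi * Complex.I * k * s / a)) * chi A (ψ s x) := by
    simp_rw [intervalIntegral.integral_of_le ha.le]
    exact (h1.stronglyMeasurable.integral_prod_right' (ν := volume.restrict (Ioc 0 a))).measurable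
  exact h2.const_smul (1 / a : ℝ)

theorem ck_norm {A : Set Z} {a : ℝ} (ha : 0 < a) (k : ℤ) (x : Z) : ‖ck ψ A a k x‖ ≤ 1 := by
  unfold ck
  have h := norm_integral_le_of_norm_le_const (a := 0) (b := a) (C := 1)
    (f := fun s : ℝ => Complex.exp (-(2 * Real.pi * Complex.I * k * s / a)) * chi A (ψ s x))
    (fun s _ => by
      rw [norm_mul]
      have e : ‖Complex.exp (-(2 * Real.pi * Complex.I * k * s / a))‖ = 1 := by
        rw [show -(2 * Real.pi * Complex.I * k * s / a) =
          ((-(2 * Real.pi * k * s / a) : ℝ) : ℂ) * Complex.I by push_cast; ring]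
        exact Complex.norm_exp_ofReal_mul_I _
      rw [e, one_mul]
      exact chi_norm A _)
  rw [norm_smul, Real.norm_eq_abs, abs_of_pos (by positivity)]
  rw [sub_zero, abs_of_pos ha, one_mul] at h
  calc 1 / a * _ ≤ 1 / a * a := mul_le_mul_of_nonneg_left h (by positivity)
    _ = 1 := by field_simp

theorem ck_eigen (hψ : IsFlow ψ) {A : Set Z} {a : ℝ} (ha : 0 < a) (hA : ψ a ⁻¹' A = A) (k : ℤ)
    (r : ℝ) (x : Z) : ck ψ A a k (ψ r x) =
      Complex.exp (2 * Real.pi * Complex.I * (k / a * r : ℝ)) * ck ψ A a k x := by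
  have ha' : (a : ℂ) ≠ 0 := by exact_mod_cast ha.ne'
  set w : ℝ → ℂ := fun s => Complex.exp (-(2 * Real.pi * Complex.I * k * s / a)) * chi A (ψ s x)
    with hw
  have hper : Function.Periodic w a := by
    intro s
    have e1 : chi A (ψ (s + a) x) = chi A (ψ s x) := by
      rw [add_comm s a, hψ.add]
      unfold chi
      have h2 : ψ a (ψ s x) ∈ A ↔ ψ s x ∈ A := by
        conv_rhs => rw [← hA]
        rfl
      by_cases h : ψ s x ∈ A
      · rw [indicator_of_mem h, indicator_of_mem (h2.2 h)]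
      · rw [indicator_of_notMem h, indicator_of_notMem (fun h' => h (h2.1 h'))]
    show Complex.exp (-(2 * Real.pi * Complex.I * k * ((s + a : ℝ) : ℂ) / a)) *
      chi A (ψ (s + a) x) = _
    rw [e1]
    congr 1
    rw [show -(2 * Real.pi * Complex.I * k * ((s + a : ℝ) : ℂ) / a) =
      -(2 * Real.pi * Complex.I * k * s / a) + ((-k : ℤ) : ℂ) * (2 * Real.pi * Complex.I) by
        push_cast; field_simp; ring]
    rw [Complex.exp_add, Complex.exp_int_mul_two_pi_mul_I, mul_one]
  have h1 : ∫ s in (0 : ℝ)..a,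
      Complex.exp (-(2 * Real.pi * Complex.I * k * s / a)) * chi A (ψ s (ψ r x)) =
      Complex.exp (2 * Real.pi * Complex.I * (k / a * r : ℝ)) * ∫ s in (0 : ℝ)..a, w s := by
    have e1 : ∀ s : ℝ, Complex.exp (-(2 * Real.pi * Complex.I * k * s / a)) *
        chi A (ψ s (ψ r x)) =
        Complex.exp (2 * Real.pi * Complex.I * (k / a * r : ℝ)) * w (s + r) := by
      intro s
      rw [hw, ← hψ.add]
      show _ = _ * (Complex.exp (-(2 * Real.pi * Complex.I * k * ((s + r : ℝ) : ℂ) / a)) * _)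
      rw [← mul_assoc, ← Complex.exp_add]
      congr 2
      push_cast
      field_simp
      ring
    simp_rw [e1]
    rw [intervalIntegral.integral_const_mul]
    congr 1
    rw [intervalIntegral.integral_comp_add_right (fun s => w s) r, zero_add, add_comm a r,
      hper.intervalIntegral_add_eq r 0, zero_add]
  unfold ck
  rw [h1, mul_smul_comm]

/-- the average of the indicator along a period -/
noncomputable def be (ψ : ℝ → Z → Z) (A : Set Z) (a : ℝ) (x : Z) : ℝ :=
  (1 / a) * ∫ s in (0 : ℝ)..a, A.indicator (fun _ => (1 : ℝ)) (ψ s x)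

theorem ck_zero {A : Set Z} {a : ℝ} (x : Z) : ck ψ A a 0 x = (be ψ A a x : ℂ) := by
  unfold ck be
  simp only [Int.cast_zero, mul_zero, zero_mul, zero_div, neg_zero, Complex.exp_zero, one_mul]
  rw [Complex.real_smul]
  push_cast
  congr 1
  rw [← intervalIntegral.integral_ofReal]
  congr 1
  funext s
  unfold chi
  by_cases h : ψ s x ∈ A
  · rw [indicator_of_mem h, indicator_of_mem h]; simp
  · rw [indicator_of_notMem h, indicator_of_notMem h]; simp

theorem ck_four {A : Set Z} {a : ℝ} (ha : 0 < a) (k : ℤ) (x : Z) :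
    fourierCoeffOn ha (fun s => chi A (ψ s x)) k = ck ψ A a k x := by
  rw [fourierCoeffOn_eq_integral, ck, sub_zero]
  congr 1
  refine intervalIntegral.integral_congr fun s _ => ?_
  simp only [smul_eq_mul]
  rw [fourier_coe_apply]
  congr 2
  push_cast
  ring

theorem parseval (hψ : IsFlow ψ) {A : Set Z} (hA : MeasurableSet A) {a : ℝ} (ha : 0 < a) (x : Z)
    (h : ∀ k : ℤ, k ≠ 0 → ck ψ A a k x = 0) : be ψ A a x = 0 ∨ be ψ A a x = 1 := by
  have hm : Measurable fun s : ℝ => chi A (ψ s x) :=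
    (chi_meas hA).comp ((flow_meas hψ).comp (measurable_id.prodMk measurable_const))
  have hL2 : MemLp (fun s : ℝ => chi A (ψ s x)) 2 (volume.restrict (Ioc 0 a)) :=
    MemLp.of_bound hm.aestronglyMeasurable 1 (Eventually.of_forall fun s => chi_norm A _)
  have h1 := hasSum_sq_fourierCoeffOn ha hL2
  have h2 : HasSum (fun k : ℤ => ‖fourierCoeffOn ha (fun s => chi A (ψ s x)) k‖ ^ 2)
      (be ψ A a x ^ 2) := by
    have h3 := hasSum_single (f := fun k : ℤ => ‖fourierCoeffOn ha (fun s => chi A (ψ s x)) k‖ ^ 2)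
      0 (fun k hk => by
        rw [ck_four, h k hk]
        simp)
    convert h3 using 1
    rw [ck_four, ck_zero, Complex.norm_real, Real.norm_eq_abs, sq_abs]
  have h3 := h1.unique h2
  have h4 : (a - 0)⁻¹ • ∫ s in (0 : ℝ)..a, ‖chi A (ψ s x)‖ ^ 2 = be ψ A a x := by
    rw [sub_zero, be, smul_eq_mul, one_div]
    congr 1
    refine intervalIntegral.integral_congr fun s _ => ?_
    unfold chi
    by_cases h : ψ s x ∈ A
    · simp [h]
    · simp [h]
  rw [h4] at h3
  have h5 : be ψ A a x * (be ψ A a x - 1) = 0 := by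
    have : be ψ A a x * (be ψ A a x - 1) = be ψ A a x ^ 2 - be ψ A a x := by ring
    rw [this, ← h3, sub_self]
  rcases mul_eq_zero.1 h5 with h6 | h6
  · exact Or.inl h6
  · exact Or.inr (by linarith)

theorem be_inv (hψ : IsFlow ψ) {A : Set Z} {a : ℝ} (ha : 0 < a) (hA : ψ a ⁻¹' A = A)
    (r : ℝ) (x : Z) : be ψ A a (ψ r x) = be ψ A a x := by
  have h := ck_eigen hψ ha hA 0 r x
  rw [ck_zero, ck_zero] at h
  simp only [Int.cast_zero, zero_div, zero_mul, Complex.ofReal_zero, mul_zero, Complex.exp_zero,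
    one_mul] at h
  exact_mod_cast h

theorem be_meas (hψ : IsFlow ψ) {A : Set Z} (hA : MeasurableSet A) {a : ℝ} (ha : 0 < a) :
    Measurable (be ψ A a) := by
  have h : be ψ A a = fun x => (ck ψ A a 0 x).re := by
    funext x
    rw [ck_zero, Complex.ofReal_re]
  rw [h]
  exact Complex.measurable_re.comp (ck_meas hψ hA ha 0)

theorem be_int [IsProbabilityMeasure m] (hψ : IsFlow ψ) (pres : ∀ t, MeasurePreserving (ψ t) m m)
    {A : Set Z} (hA : MeasurableSet A) {a : ℝ} (ha : 0 < a) :
    ∫ x, be ψ A a x ∂m = m.real A := by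
  unfold be
  rw [MeasureTheory.integral_const_mul]
  have h1 : ∫ x, (∫ s in (0 : ℝ)..a, A.indicator (fun _ => (1 : ℝ)) (ψ s x)) ∂m =
      ∫ s in (0 : ℝ)..a, (∫ x, A.indicator (fun _ => (1 : ℝ)) (ψ s x) ∂m) := by
    simp_rw [intervalIntegral.integral_of_le ha.le]
    refine MeasureTheory.integral_integral_swap
      (f := fun (x : Z) (s : ℝ) => A.indicator (fun _ => (1 : ℝ)) (ψ s x)) ?_
    have hm : Measurable (Function.uncurry fun (x : Z) (s : ℝ) =>
        A.indicator (fun _ => (1 : ℝ)) (ψ s x)) :=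
      (measurable_const.indicator hA).comp
        ((flow_meas hψ).comp (measurable_snd.prodMk measurable_fst))
    refine Integrable.of_bound (C := 1) hm.aestronglyMeasurable (Eventually.of_forall fun q => ?_)
    show ‖A.indicator (fun _ => (1 : ℝ)) (ψ q.2 q.1)‖ ≤ 1
    by_cases h : ψ q.2 q.1 ∈ A
    · simp [h]
    · simp [h]
  rw [h1]
  have h2 : ∀ s : ℝ, ∫ x, A.indicator (fun _ => (1 : ℝ)) (ψ s x) ∂m = m.real A := by
    intro s
    have h3 : ∫ x, A.indicator (fun _ => (1 : ℝ)) x ∂(m.map (ψ s)) =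
        ∫ x, A.indicator (fun _ => (1 : ℝ)) (ψ s x) ∂m :=
      integral_map (pres s).measurable.aemeasurable
        (measurable_const.indicator hA).aestronglyMeasurable
    rw [← h3, (pres s).map_eq, integral_indicator_const _ hA]
    simp
  simp_rw [h2]
  rw [intervalIntegral.integral_const, sub_zero, smul_eq_mul]
  field_simp

/-- a non-ergodic time gives a frequency -/
theorem freq_of_not_ergodic [IsProbabilityMeasure m] (hψ : IsFlow ψ) (hm : ErgodicFlow ψ m)
    {a : ℝ} (ha : 0 < a) (h : ¬ Ergodic (ψ a) m) :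
    ∃ k : ℤ, k ≠ 0 ∧ (k : ℝ) / a ∈ Freq ψ m := by
  by_contra hcon
  push Not at hcon
  apply h
  refine ⟨hm.pres a, ⟨fun {A} hA hAi => ?_⟩⟩
  have h1 : ∀ k : ℤ, k ≠ 0 → ck ψ A a k =ᵐ[m] 0 := by
    intro k hk
    by_contra hne
    refine hcon k hk ⟨ck ψ A a k, ck_meas hψ hA ha k, ck_norm ha k, ?_, hne⟩
    intro r x
    exact ck_eigen hψ ha hAi k r x
  have h2 : ∀ᵐ x ∂m, ∀ k : ℤ, k ≠ 0 → ck ψ A a k x = 0 := by
    rw [ae_all_iff]
    intro k
    by_cases hk : k = 0
    · exact Eventually.of_forall fun x h => absurd hk h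
    · filter_upwards [h1 k hk] with x hx _ using hx
  have h3 : ∀ᵐ x ∂m, be ψ A a x = 0 ∨ be ψ A a x = 1 := by
    filter_upwards [h2] with x hx
    exact parseval hψ hA ha x hx
  have hbm := be_meas hψ hA ha
  have hbi := be_int (m := m) hψ hm.pres hA ha
  rcases hm.erg {x | be ψ A a x = 1} (hbm (measurableSet_singleton 1)) (fun t => by
    ext x
    simp only [mem_preimage, mem_ofPred_eq]
    rw [be_inv hψ ha hAi]) with h4 | h4
  · have h5 : be ψ A a =ᵐ[m] 0 := by
      filter_upwards [h3, measure_eq_zero_iff_ae_notMem.1 h4] with x hx hx'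
      rcases hx with hx | hx
      · exact hx
      · exact absurd hx hx'
    have h6 : m.real A = 0 := by
      rw [← hbi, integral_congr_ae h5]
      simp
    rw [measureReal_eq_zero_iff] at h6
    rw [Filter.eventuallyConst_set']
    left
    exact ae_eq_empty.2 h6
  · have h5 : be ψ A a =ᵐ[m] fun _ => 1 := by
      have := measure_eq_zero_iff_ae_notMem.1 h4
      filter_upwards [this] with x hx
      exact not_not.1 hx
    have h6 : m.real A = 1 := by
      rw [← hbi, integral_congr_ae h5]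
      simp
    have h7 : m A = 1 := by
      rw [measureReal_def] at h6
      exact (ENNReal.toReal_eq_one_iff _).1 h6
    rw [Filter.eventuallyConst_set']
    right
    exact ae_eq_univ.2 ((prob_compl_eq_zero_iff hA).2 h7)

/-- eigenfunctions with different frequencies are orthogonal -/
theorem freq_orth (hpres : ∀ t, MeasurePreserving (ψ t) m m) {α β : ℝ} (hne : α ≠ β)
    {E E' : Z → ℂ} (mE : Measurable E) (mE' : Measurable E')
    (hE : ∀ r x, E (ψ r x) = Complex.exp (2 * Real.pi * Complex.I * (α * r : ℝ)) * E x)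
    (hE' : ∀ r x, E' (ψ r x) = Complex.exp (2 * Real.pi * Complex.I * (β * r : ℝ)) * E' x) :
    ∫ x, E' x * (starRingEnd ℂ) (E x) ∂m = 0 := by
  set r : ℝ := 1 / (2 * (β - α)) with hr
  have hne' : β - α ≠ 0 := sub_ne_zero.2 hne.symm
  have h1 : ∀ x, E' (ψ r x) * (starRingEnd ℂ) (E (ψ r x)) =
      - (E' x * (starRingEnd ℂ) (E x)) := by
    intro x
    rw [hE, hE', map_mul, ← Complex.exp_conj]
    have e1 : (starRingEnd ℂ) (2 * Real.pi * Complex.I * (α * r : ℝ)) =
        -(2 * Real.pi * Complex.I * (α * r : ℝ)) := by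
      simp only [map_mul, Complex.conj_I, Complex.conj_ofReal]
      rw [map_ofNat]
      ring
    rw [e1]
    have e2 : Complex.exp (2 * Real.pi * Complex.I * (β * r : ℝ)) *
        Complex.exp (-(2 * Real.pi * Complex.I * (α * r : ℝ))) = -1 := by
      rw [← Complex.exp_add, ← Complex.exp_pi_mul_I]
      congr 1
      have e3 : (β - α) * r = 1 / 2 := by
        rw [hr]; field_simp
      have e4 : ((β : ℂ) - α) * (r : ℂ) = 1 / 2 := by
        have := congrArg (fun t : ℝ => (t : ℂ)) e3
        push_cast at this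
        exact this
      push_cast
      linear_combination (2 * Real.pi * Complex.I) * e4
    calc _ = (Complex.exp (2 * Real.pi * Complex.I * (β * r : ℝ)) *
        Complex.exp (-(2 * Real.pi * Complex.I * (α * r : ℝ)))) *
          (E' x * (starRingEnd ℂ) (E x)) := by ring
      _ = _ := by rw [e2]; ring
  have h2 : ∫ x, E' x * (starRingEnd ℂ) (E x) ∂(m.map (ψ r)) =
      ∫ x, E' (ψ r x) * (starRingEnd ℂ) (E (ψ r x)) ∂m := by
    refine integral_map (hpres r).measurable.aemeasurable ?_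
    exact (mE'.mul (Complex.continuous_conj.measurable.comp mE)).aestronglyMeasurable
  rw [(hpres r).map_eq] at h2
  simp_rw [h1] at h2
  rw [MeasureTheory.integral_neg] at h2
  have h3 : (2 : ℂ) * ∫ x, E' x * (starRingEnd ℂ) (E x) ∂m = 0 := by
    rw [two_mul]
    nth_rw 1 [h2]
    ring
  exact (mul_eq_zero.1 h3).resolve_left two_ne_zero

/-- there are only countably many frequencies -/
theorem freq_countable [IsProbabilityMeasure m] (hpres : ∀ t, MeasurePreserving (ψ t) m m) :
    (Freq ψ m).Countable := by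
  classical
  choose E mE bE hE nE using fun α : Freq ψ m => α.2
  have hL : ∀ α, MemLp (E α) 2 m := fun α =>
    MemLp.of_bound (mE α).aestronglyMeasurable 1 (Eventually.of_forall (bE α))
  let f : Freq ψ m → Lp ℂ 2 m := fun α => (hL α).toLp
  have hf0 : ∀ α, f α ≠ 0 := by
    intro α h
    apply nE α
    have h1 := (hL α).coeFn_toLp
    have h2 : (f α : Z → ℂ) =ᵐ[m] 0 := by
      rw [h]
      exact Lp.coeFn_zero _ _ _
    exact h1.symm.trans h2
  have horth : ∀ α β, α ≠ β → inner ℂ (f α) (f β) = 0 := by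
    intro α β hne
    rw [L2.inner_def]
    have h1 : ∫ x, inner ℂ ((f α : Z → ℂ) x) ((f β : Z → ℂ) x) ∂m =
        ∫ x, E β x * (starRingEnd ℂ) (E α x) ∂m := by
      refine integral_congr_ae ?_
      filter_upwards [(hL α).coeFn_toLp, (hL β).coeFn_toLp] with x hx hx'
      show inner ℂ (((hL α).toLp : Lp ℂ 2 m) x) (((hL β).toLp : Lp ℂ 2 m) x) = _
      rw [hx, hx']
      rfl
    rw [h1]
    exact freq_orth hpres (fun h => hne (Subtype.ext h)) (mE α) (mE β) (hE α) (hE β)
  let v : Freq ψ m → Lp ℂ 2 m := fun α => ((‖f α‖⁻¹ : ℝ) : ℂ) • f α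
  have hv : ∀ α, ‖v α‖ = 1 := by
    intro α
    have : 0 < ‖f α‖ := norm_pos_iff.2 (hf0 α)
    rw [norm_smul, Complex.norm_real, Real.norm_eq_abs, abs_of_pos (inv_pos.2 this)]
    exact inv_mul_cancel₀ this.ne'
  have hvo : ∀ α β, α ≠ β → inner ℂ (v α) (v β) = 0 := by
    intro α β hne
    show inner ℂ (((‖f α‖⁻¹ : ℝ) : ℂ) • f α) (((‖f β‖⁻¹ : ℝ) : ℂ) • f β) = 0
    rw [inner_smul_left, inner_smul_right, horth α β hne]
    simp
  have hdist : ∀ α β, α ≠ β → 1 < dist (v α) (v β) := by
    intro α β hne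
    rw [dist_eq_norm]
    have h1 := @norm_sub_sq ℂ _ _ _ _ (v α) (v β)
    rw [hvo α β hne, hv, hv] at h1
    simp only [map_zero, mul_zero, sub_zero, one_pow] at h1
    have h2 : 0 ≤ ‖v α - v β‖ := norm_nonneg _
    nlinarith
  have hsep : TopologicalSpace.SeparableSpace (Lp ℂ 2 m) := by
    have h1 : Fact ((2 : ENNReal) ≠ ⊤) := ⟨ENNReal.ofNat_ne_top⟩
    infer_instance
  have hpair : Pairwise (Function.onFun Disjoint fun α : Freq ψ m => Metric.ball (v α) (1 / 2)) := by
    intro α β hne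
    refine Metric.ball_disjoint_ball ?_
    have := hdist α β hne
    linarith
  have hc := hpair.countable_of_isOpen_disjoint (fun α => Metric.isOpen_ball)
    (fun α => ⟨v α, Metric.mem_ball_self (by norm_num)⟩)
  exact Set.countable_coe_iff.1 hc

/-- **An ergodic flow has an ergodic time-`a` map for some `a > 0`.** -/
theorem exists_ergodic_time [IsProbabilityMeasure m] (hψ : IsFlow ψ) (hm : ErgodicFlow ψ m) :
    ∃ a : ℝ, 0 < a ∧ Ergodic (ψ a) m := by
  by_contra hcon
  push Not at hcon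
  have hc : ((fun q : ℤ × ℝ => (q.1 : ℝ) / q.2) '' (univ ×ˢ Freq ψ m)).Countable :=
    ((countable_univ).prod (freq_countable hm.pres)).image _
  have hsub : Ioi (0 : ℝ) ⊆ (fun q : ℤ × ℝ => (q.1 : ℝ) / q.2) '' (univ ×ˢ Freq ψ m) := by
    intro a ha
    obtain ⟨k, hk, hf⟩ := freq_of_not_ergodic hψ hm ha (hcon a ha)
    refine ⟨(k, (k : ℝ) / a), ⟨mem_univ _, hf⟩, ?_⟩
    have hk' : (k : ℝ) ≠ 0 := by exact_mod_cast hk
    have ha' : a ≠ 0 := ha.ne'
    show (k : ℝ) / ((k : ℝ) / a) = a
    field_simp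
  have h0 := (hc.mono hsub).measure_zero volume
  rw [Real.volume_Ioi] at h0
  exact ENNReal.top_ne_zero h0

end Pool.Agent.V8H61.MF
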