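import Pool.Agent.V8H61.MF.Sard

/-! # Monotone families: neutral graphs exist only for a null set of parameters, conclusion -/

set_option autoImplicit false

open Set Filter Topology MeasureTheory

namespace Pool.Agent.V8H61.MF

open Pool.Agent.TH525.PF Pool.Agent.TH525.PF.Sys

variable {X : Type*} [MeasurableSpace X] {m : Measure X} [IsProbabilityMeasure m]

namespace Fam

variable (A : Fam X)

theorem sard_local (erg : Ergodic A.T m) {s : ℝ} {φ : X → ℝ} (hφ : (A.sys s).Gr m φ)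
    (h0 : (A.sys s).ex m φ = 0)
    {C : ℝ} (hC : 0 < C) : ∃ δ : ℝ, 0 < δ ∧ ∀ s' : ℝ, s' ≠ s → ∀ φ' : X → ℝ,
      (A.sys s').Gr m φ' → |ef m φ' - ef m φ| < δ → |s' - s| ≤ C * |ef m φ' - ef m φ| := by
  have hκ := A.κpos
  obtain ⟨R0, hR0, hR0'⟩ := tail (m := m) hφ.1 (show (0 : ℝ) < 1 / 4 by norm_num)
  set C' := C * A.κ with hC'
  have hC'p : 0 < C' := mul_pos hC hκ
  set a0 := 1 / (1 + (R0 + 1) ^ 2) with ha0
  have ha0p : 0 < a0 := by rw [ha0]; positivity
  set M := max 1 (2 / (a0 * C')) with hM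
  have hM1 : 1 ≤ M := le_max_left _ _
  have hM2 : 2 / (a0 * C') ≤ M := le_max_right _ _
  have hMp : 0 < M := by linarith
  have hL1 : 0 < A.L + 1 := by linarith [A.L1]
  have hlog : 0 ≤ Real.log A.L := (A.sys s).logL
  set K := M * (A.L + 1) with hK
  have hKp : 0 < K := mul_pos hMp hL1
  set c := 1 / (16 * K) with hc
  have hcp : 0 < c := by rw [hc]; positivity
  obtain ⟨ρ', hρ'p, hρ'⟩ := A.mod s c hcp
  set ρ := min ρ' 1 with hρdef
  have hρp : 0 < ρ := lt_min hρ'p one_pos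
  have hρ1 : ρ ≤ 1 := min_le_right _ _
  have hρ : ∀ x y y', |y - y'| < ρ → |Real.log (A.G s x y) - Real.log (A.G s x y')| ≤ c :=
    fun x y y' h => hρ' x y y' (h.trans_le (min_le_left _ _))
  set η := 1 / (16 * K * (2 * Real.log A.L + 1)) with hη
  have hηp : 0 < η := by rw [hη]; positivity
  obtain ⟨R1, hR1, hR1'⟩ := tail (m := m) hφ.1 hηp
  set a1 := ρ / (1 + (R1 + 1) ^ 2) with ha1
  have ha1p : 0 < a1 := by rw [ha1]; positivity
  refine ⟨min (a1 * η) (a0 / 2), lt_min (by positivity) (by positivity), ?_⟩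
  intro s' hσ φ' hφ' hδ
  have hs := A.sgn erg hφ hσ hφ'
  have hδ1 := hδ.trans_le (min_le_left _ _)
  have hδ2 := hδ.trans_le (min_le_right _ _)
  have mD : Measurable fun x => |φ' x - φ x| := (hφ'.1.sub hφ.1).abs
  set σ := A.κ * |s' - s| with hσdef
  -- the differences are small on most fibres
  have s1 : m.real {x | ρ ≤ |φ' x - φ x|} ≤ 2 * η := by
    have e1 := ef_ge (m := m) hφ.1 hφ'.1 hs (R := R1) hρp hρ1
    have e2 : m.real {x | ρ ≤ |φ' x - φ x| ∧ |φ x| ≤ R1} ≤ η := by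
      have : a1 * m.real {x | ρ ≤ |φ' x - φ x| ∧ |φ x| ≤ R1} ≤ a1 * η := e1.trans hδ1.le
      exact le_of_mul_le_mul_left this ha1p
    have e3 : m.real {x | ρ ≤ |φ' x - φ x|} ≤
        m.real ({x | ρ ≤ |φ' x - φ x| ∧ |φ x| ≤ R1} ∪ {x | R1 < |φ x|}) := by
      refine measureReal_mono ?_
      intro x hx
      by_cases h : |φ x| ≤ R1
      · exact Or.inl ⟨hx, h⟩
      · exact Or.inr (not_le.1 h)
    have e4 := measureReal_union_le (μ := m) {x | ρ ≤ |φ' x - φ x| ∧ |φ x| ≤ R1} {x | R1 < |φ x|}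
    linarith
  have hσp : 0 < σ := mul_pos hκ (abs_pos.2 (sub_ne_zero.2 hσ))
  have hD : ∀ᵐ x ∂m, 0 < |φ' x - φ x| := by
    rcases hs with h | h
    · filter_upwards [h] with x hx using abs_pos.2 (sub_ne_zero.2 hx.ne')
    · filter_upwards [h] with x hx using abs_pos.2 (sub_ne_zero.2 hx.ne)
  have s2 := A.pair erg hφ hσ hφ' h0 hcp.le hρ
  rw [← hσdef] at s2
  have s3 : M * ∫ x, min (σ / |φ' x - φ x|) 1 ∂m ≤ 1 / 4 := by
    have h1 : m.real {x | ρ ≤ |φ' x - φ x|} * (2 * Real.log A.L) ≤ 2 * η * (2 * Real.log A.L) :=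
      mul_le_mul_of_nonneg_right s1 (by positivity)
    have h2 : M * ∫ x, min (σ / |φ' x - φ x|) 1 ∂m ≤
        K * (c + 2 * η * (2 * Real.log A.L)) := by
      rw [hK, mul_assoc]
      refine mul_le_mul_of_nonneg_left (s2.trans ?_) hMp.le
      exact mul_le_mul_of_nonneg_left (by linarith) hL1.le
    have h3 : K * c = 1 / 16 := by rw [hc]; field_simp
    have h4 : K * (2 * η * (2 * Real.log A.L)) ≤ 1 / 8 := by
      have h5 : K * η * (2 * Real.log A.L + 1) = 1 / 16 := by rw [hη]; field_simp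
      have h6 : 0 ≤ K * η := by positivity
      have h7 : K * (2 * η * (2 * Real.log A.L)) = 2 * (K * η * (2 * Real.log A.L + 1)) -
        2 * (K * η) := by ring
      rw [h7, h5]
      linarith
    have h8 : K * (c + 2 * η * (2 * Real.log A.L)) = K * c + K * (2 * η * (2 * Real.log A.L)) := by
      ring
    rw [h8] at h2
    linarith
  -- Markov
  have mB : MeasurableSet {x | |φ' x - φ x| < M * σ} := measurableSet_lt mD measurable_const
  have s4 : m.real {x | |φ' x - φ x| < M * σ} ≤ 1 / 4 := by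
    have i1 := int_u (m := m) mD hD hσp
    have h1 : ∫ x, {x | |φ' x - φ x| < M * σ}.indicator (fun _ => 1 / M) x ∂m ≤
        ∫ x, min (σ / |φ' x - φ x|) 1 ∂m := by
      refine integral_mono_ae ((integrable_const _).indicator mB) i1 ?_
      filter_upwards [hD] with x hx
      by_cases hxB : |φ' x - φ x| < M * σ
      · rw [indicator_of_mem (show x ∈ {x | |φ' x - φ x| < M * σ} from hxB)]
        refine le_min ?_ ?_
        · rw [div_le_div_iff₀ hMp hx]
          linarith
        · rw [div_le_one hMp]; exact hM1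
      · rw [indicator_of_notMem (show x ∉ {x | |φ' x - φ x| < M * σ} from hxB)]
        exact le_min (by positivity) zero_le_one
    rw [integral_indicator_const _ mB, smul_eq_mul] at h1
    have h2 : m.real {x | |φ' x - φ x| < M * σ} * (1 / M) * M ≤
        M * ∫ x, min (σ / |φ' x - φ x|) 1 ∂m := by
      have := mul_le_mul_of_nonneg_left h1 hMp.le
      linarith
    have h3 : m.real {x | |φ' x - φ x| < M * σ} * (1 / M) * M =
        m.real {x | |φ' x - φ x| < M * σ} := by field_simp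
    rw [h3] at h2
    exact h2.trans s3
  set u := min (M * σ) 1 with hu
  have hup : 0 < u := lt_min (by positivity) one_pos
  have s5 : 1 / 2 ≤ m.real {x | u ≤ |φ' x - φ x| ∧ |φ x| ≤ R0} := by
    have h1 : (univ : Set X) ⊆ {x | u ≤ |φ' x - φ x| ∧ |φ x| ≤ R0} ∪
        ({x | |φ' x - φ x| < M * σ} ∪ {x | R0 < |φ x|}) := by
      intro x _
      by_cases h : |φ x| ≤ R0
      · by_cases h' : |φ' x - φ x| < M * σ
        · exact Or.inr (Or.inl h')
        · exact Or.inl ⟨(min_le_left _ _).trans (not_lt.1 h'), h⟩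
      · exact Or.inr (Or.inr (not_le.1 h))
    have h2 := measureReal_mono (μ := m) h1
    have h3 := measureReal_union_le (μ := m) {x | u ≤ |φ' x - φ x| ∧ |φ x| ≤ R0}
        ({x | |φ' x - φ x| < M * σ} ∪ {x | R0 < |φ x|})
    have h4 := measureReal_union_le (μ := m) {x | |φ' x - φ x| < M * σ} {x | R0 < |φ x|}
    have h5 : m.real (univ : Set X) = 1 := by simp
    linarith
  have s6 := ef_ge (m := m) hφ.1 hφ'.1 hs (R := R0) hup (min_le_right _ _)
  have s7 : u * a0 / 2 ≤ |ef m φ' - ef m φ| := by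
    refine le_trans ?_ s6
    rw [show u / (1 + (R0 + 1) ^ 2) = u * a0 by rw [ha0]; ring]
    have h1 : 0 ≤ u * a0 := by positivity
    have h2 := mul_le_mul_of_nonneg_left s5 h1
    linarith
  have s8 : u < 1 := by
    by_contra hcon
    have h1 : 1 * a0 ≤ u * a0 := mul_le_mul_of_nonneg_right (not_lt.1 hcon) ha0p.le
    linarith
  have s9 : u = M * σ := by
    rcases min_choice (M * σ) 1 with h | h
    · exact h
    · rw [hu, h] at s8
      exact absurd s8 (lt_irrefl _)
  rw [s9] at s7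
  have s10 : σ ≤ C' * (M * σ * a0 / 2) := by
    have h1 : 2 / (a0 * C') * (a0 * C') = 2 := by field_simp
    have h2 : 2 ≤ M * (a0 * C') := by
      calc (2 : ℝ) = 2 / (a0 * C') * (a0 * C') := h1.symm
        _ ≤ M * (a0 * C') := mul_le_mul_of_nonneg_right hM2 (by positivity)
    have h3 : 2 * σ ≤ M * (a0 * C') * σ := mul_le_mul_of_nonneg_right h2 hσp.le
    have h4 : C' * (M * σ * a0 / 2) = M * (a0 * C') * σ / 2 := by ring
    rw [h4]
    linarith
  have s11 : A.κ * |s' - s| ≤ A.κ * (C * |ef m φ' - ef m φ|) := by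
    have := s10.trans (mul_le_mul_of_nonneg_left s7 hC'p.le)
    rw [hC'] at this
    rw [← hσdef]
    linarith
  exact le_of_mul_le_mul_left s11 hκ

/-- **Neutral graphs exist only for a null set of parameters.** -/
theorem sard (erg : Ergodic A.T m) :
    volume {s : ℝ | ∃ φ : X → ℝ, (A.sys s).Gr m φ ∧ (A.sys s).ex m φ = 0} = 0 := by
  classical
  set N := {s : ℝ | ∃ φ : X → ℝ, (A.sys s).Gr m φ ∧ (A.sys s).ex m φ = 0} with hN
  choose! Φ hΦ1 hΦ2 using fun (s : ℝ) (hs : s ∈ N) => hs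
  set e : ℝ → ℝ := fun s => ef m (Φ s) with he
  have hinj : InjOn e N := by
    intro s hs s' hs' hee
    by_contra hne
    rcases A.sgn erg (hΦ1 s hs) (Ne.symm hne) (hΦ1 s' hs') with h1 | h1
    · exact (ef_lt (hΦ1 s hs).1 (hΦ1 s' hs').1 h1).ne hee
    · exact (ef_lt (hΦ1 s' hs').1 (hΦ1 s hs).1 h1).ne' hee
  set g : ℝ → ℝ := Function.invFunOn e N with hg
  have hge : ∀ s ∈ N, g (e s) = s := fun s hs => hinj.leftInvOn_invFunOn hs
  have himg : N = g '' (e '' N) := by
    ext s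
    constructor
    · intro hs
      exact ⟨e s, ⟨s, hs, rfl⟩, hge s hs⟩
    · rintro ⟨_, ⟨t, ht, rfl⟩, rfl⟩
      rw [hge t ht]
      exact ht
  rw [himg]
  refine addHaar_image_eq_zero_of_det_fderivWithin_eq_zero volume (f' := fun _ => (0 : ℝ →L[ℝ] ℝ))
    ?_ ?_
  · rintro _ ⟨s, hs, rfl⟩
    rw [hasFDerivWithinAt_iff_isLittleO, Asymptotics.isLittleO_iff]
    intro C hC
    obtain ⟨δ, hδ, h⟩ := A.sard_local (m := m) erg (hΦ1 s hs) (hΦ2 s hs) hC
    rw [Filter.eventually_iff_exists_mem]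
    refine ⟨Metric.ball (e s) δ ∩ e '' N, ?_, ?_⟩
    · exact inter_mem_nhdsWithin _ (Metric.ball_mem_nhds _ hδ) |> fun h => by
        rw [inter_comm] at h; exact h
    · rintro _ ⟨hb, ⟨t, ht, rfl⟩⟩
      simp only [_root_.zero_apply, sub_zero, Real.norm_eq_abs]
      rw [hge t ht, hge s hs]
      by_cases hts : t = s
      · rw [hts, sub_self, abs_zero]; positivity
      · rw [Metric.mem_ball, Real.dist_eq] at hb
        exact h t hts (Φ t) (hΦ1 t ht) hb
  · intro x _
    simp [ContinuousLinearMap.det]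

end Fam

end Pool.Agent.V8H61.MF
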