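import Pool.Agent.V8H61.MF.Wav
import Pool.Agent.V8H61.MF.Sard2
import Pool.Agent.TH525.PF.Ext

/-! # Monotone families: the extended base, and mode-locked parameters -/

set_option autoImplicit false

open Set Filter Topology MeasureTheory

namespace Pool.Agent.V8H61.MF

open Pool.Agent.TH525.PF Pool.Agent.TH525.PF.Sys
open Pool.Agent.H728R2.OS Pool.Agent.H728R2.FA

namespace Fam

variable {X : Type*} [MeasurableSpace X] (A : Fam X)

/-- the integer translation -/
noncomputable def nn (a : ℝ) (τ : (X × Circ) ≃ᵐ (X × Circ)) (p : X × Circ) : ℝ :=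
  A.F a p.1 (rep p.2) - rep (τ p).2

theorem nn_int {a : ℝ} {τ : (X × Circ) ≃ᵐ (X × Circ)}
    (hτ : ∀ (x : X) (y : ℝ), τ (x, (y : UnitAddCircle)) = (A.T x, ((A.F a x y : ℝ) : UnitAddCircle)))
    (p : X × Circ) : ∃ k : ℤ, A.nn a τ p = k := by
  have h1 : ((A.nn a τ p : ℝ) : UnitAddCircle) = 0 := by
    rw [nn, AddCircle.coe_sub, rep_coe]
    have h2 : τ p = (A.T p.1, ((A.F a p.1 (rep p.2) : ℝ) : UnitAddCircle)) := by
      rw [← hτ, rep_coe]
    rw [h2, sub_self]
  rw [AddCircle.coe_eq_zero_iff] at h1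
  obtain ⟨k, hk⟩ := h1
  exact ⟨k, by rw [← hk]; simp⟩

/-- the extended family -/
noncomputable def ext (a : ℝ) (τ : (X × Circ) ≃ᵐ (X × Circ)) : Fam (X × Circ) where
  T := τ
  F := fun s p z => A.F s p.1 z - A.nn a τ p
  G := fun s p z => A.G s p.1 z
  L := A.L
  mF := fun s => by
    have h1 : Measurable (A.nn a τ) := by
      refine Measurable.sub ?_ ?_
      · exact (A.mF a).comp (measurable_fst.prodMk (rep_meas.comp measurable_snd))
      · exact rep_meas.comp (measurable_snd.comp τ.measurable)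
    exact ((A.mF s).comp ((measurable_fst.comp measurable_fst).prodMk measurable_snd)).sub
      (h1.comp measurable_fst)
  mG := fun s => (A.mG s).comp ((measurable_fst.comp measurable_fst).prodMk measurable_snd)
  der := fun s p z => (A.der s p.1 z).sub_const _
  L1 := A.L1
  lo := fun s p z => A.lo _ _ _
  hi := fun s p z => A.hi _ _ _
  mod := fun s c hc => by
    obtain ⟨ρ, h1, h2⟩ := A.mod s c hc
    exact ⟨ρ, h1, fun p => h2 p.1⟩
  κ := A.κ
  κpos := A.κpos
  lower := fun s s' p y h => by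
    have := A.lower s s' p.1 y h
    linarith
  K := A.K
  upper := fun s s' p y h => by
    have := A.upper s s' p.1 y h
    linarith

@[simp] theorem ext_T (a : ℝ) (τ : (X × Circ) ≃ᵐ (X × Circ)) : (A.ext a τ).T = τ := rfl
@[simp] theorem ext_F (a : ℝ) (τ : (X × Circ) ≃ᵐ (X × Circ)) (s : ℝ) (p : X × Circ) (z : ℝ) :
    (A.ext a τ).F s p z = A.F s p.1 z - A.nn a τ p := rfl

/-- the wave operator is an invariant section of the extended system -/
theorem ext_gr {m : Measure X} [IsProbabilityMeasure m] (erg : Ergodic A.T m)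
    (per : ∀ s x y, A.F s x (y + 1) = A.F s x y + 1) {a b s : ℝ} (has : a ≤ s) (hsb : s ≤ b)
    (h : A.Locked m a b) {τ : (X × Circ) ≃ᵐ (X × Circ)}
    (hτ : ∀ (x : X) (y : ℝ), τ (x, (y : UnitAddCircle)) = (A.T x, ((A.F a x y : ℝ) : UnitAddCircle)))
    {ν : Measure (X × Circ)} (hν : ν.map Prod.fst = m) :
    ((A.ext a τ).sys s).Gr ν (fun p => A.wave a s p.1 (rep p.2)) := by
  refine ⟨(A.wave_meas a s).comp (measurable_fst.prodMk (rep_meas.comp measurable_snd)), ?_⟩
  have hQMP : Measure.QuasiMeasurePreserving (Prod.fst : X × Circ → X) ν m :=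
    ⟨measurable_fst, hν ▸ Measure.AbsolutelyContinuous.rfl⟩
  have hsp := A.wave_spec erg per has hsb h
  filter_upwards [hQMP.ae hsp,
    hQMP.ae (erg.toMeasurePreserving.quasiMeasurePreserving.ae hsp)] with p hp hp'
  obtain ⟨k, hk⟩ := A.nn_int hτ p
  have h1 : (τ p).1 = A.T p.1 := by
    have : τ p = (A.T p.1, ((A.F a p.1 (rep p.2) : ℝ) : UnitAddCircle)) := by
      rw [← hτ, rep_coe]
    rw [this]
  have h2 : rep (τ p).2 = A.F a p.1 (rep p.2) - k := by
    rw [← hk, nn]; ring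
  show A.F s p.1 (A.wave a s p.1 (rep p.2)) - A.nn a τ p = A.wave a s (τ p).1 (rep (τ p).2)
  have h3 := (hp (rep p.2)).1
  rw [h1, h2]
  have h4 : A.wave a s (A.T p.1) (A.F a p.1 (rep p.2) - k) + k =
      A.wave a s (A.T p.1) (A.F a p.1 (rep p.2)) := by
    rw [← (hp' (A.F a p.1 (rep p.2) - k)).2 k, sub_add_cancel]
  rw [hk]
  linarith

end Fam

section

variable {B : Type*} [MetricSpace B] [CompactSpace B] [MeasurableSpace B] [BorelSpace B]
  {m : Measure B} [IsProbabilityMeasure m]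

/-- **Mode-locked parameters**: between two parameters with the same rotation number almost every
parameter has finitely many attractors. -/
theorem locked_ae (A : Fam B) (T : B ≃ₜ B) (hT : ∀ x, A.T x = T x) (erg : Ergodic T m)
    (f : ℝ → (B × Circ) ≃ₜ (B × Circ))
    (hf : ∀ (s : ℝ) (x : B) (y : ℝ),
      f s (x, (y : UnitAddCircle)) = (T x, (A.F s x y : UnitAddCircle)))
    (per : ∀ s x y, A.F s x (y + 1) = A.F s x y + 1)
    (μ : Measure (B × Circ)) (hμ : μ ≪ m.prod volume) (hμ' : m.prod volume ≪ μ)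
    {a b : ℝ} (hl : A.Locked m a b) :
    ∀ᵐ s : ℝ, a ≤ s → s ≤ b → FiniteAttractors μ (f s) := by
  have hTT : (A.T : B → B) = T := funext hT
  have ergS : Ergodic A.T m := by rw [hTT]; exact erg
  obtain ⟨ν, hν1, hν2, hν3⟩ := exists_erg_lift (f := f a) (π := Prod.fst) (T := T) (m := m)
    (f a).continuous continuous_fst (fun p => by
      obtain ⟨t, ht⟩ : ∃ t : ℝ, (t : UnitAddCircle) = p.2 := QuotientAddGroup.mk_surjective p.2
      have : p = (p.1, (t : UnitAddCircle)) := by rw [ht]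
      rw [this, hf]) erg (μ := m.prod (Measure.dirac (0 : Circ))) (by
      rw [Measure.map_fst_prod, measure_univ, one_smul])
  set τ : (B × Circ) ≃ᵐ (B × Circ) := (f a).toMeasurableEquiv with hτdef
  have hτ : ∀ (x : B) (y : ℝ),
      τ (x, (y : UnitAddCircle)) = (A.T x, ((A.F a x y : ℝ) : UnitAddCircle)) := by
    intro x y
    rw [hT]
    exact hf a x y
  have erg' : Ergodic (A.ext a τ).T ν := hν2
  have hs := (A.ext a τ).sard erg'
  have hae : ∀ᵐ s : ℝ, s ∉ {s : ℝ | ∃ φ, ((A.ext a τ).sys s).Gr ν φ ∧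
      ((A.ext a τ).sys s).ex ν φ = 0} := measure_eq_zero_iff_ae_notMem.1 hs
  filter_upwards [hae] with s hs1 has hsb
  have hα := A.ext_gr ergS per has hsb hl hτ hν3
  refine finiteAttractors_factor ((A.ext a τ).sys s) erg' Prod.fst measurable_fst hν3 T ?_
    (f s) ?_ ?_ ?_ hα μ hμ hμ'
  · intro p
    obtain ⟨t, ht⟩ : ∃ t : ℝ, (t : UnitAddCircle) = p.2 := QuotientAddGroup.mk_surjective p.2
    have : p = (p.1, (t : UnitAddCircle)) := by rw [ht]
    rw [this]
    show (τ (p.1, (t : UnitAddCircle))).1 = T p.1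
    rw [hτ, hT]
  · intro p y
    rw [hf]
    obtain ⟨k, hk⟩ := A.nn_int hτ p
    congr 1
    show ((A.F s p.1 y : ℝ) : UnitAddCircle) = ((A.F s p.1 y - A.nn a τ p : ℝ) : UnitAddCircle)
    rw [hk, AddCircle.coe_sub _ (A.F s p.1 y)]
    have : (((k : ℤ) : ℝ) : UnitAddCircle) = 0 := by
      rw [AddCircle.coe_eq_zero_iff]
      exact ⟨k, by simp⟩
    rw [this, sub_zero]
  · intro p y
    show A.F s p.1 (y + 1) - A.nn a τ p = A.F s p.1 y - A.nn a τ p + 1
    rw [per]; ring
  · intro φ hφ h0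
    exact hs1 ⟨φ, hφ, h0⟩

end

end Pool.Agent.V8H61.MF
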