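import Pool.Agent.TH525.PF.Fac
import Pool.Agent.TH525.PF.Sard2
import Pool.Agent.TH525.PF.KBE

/-! # Monotone families of systems with fibre dimension one over the same base -/

set_option autoImplicit false

open Set Filter Topology MeasureTheory

namespace Pool.Agent.V8H61.MF

open Pool.Agent.TH525.PF

/-- A family of fibre maps `F s x : ℝ → ℝ` with derivative `G s x` over an automorphism `T`,
increasing in the parameter `s` with speed between `κ` and `K`. -/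
structure Fam (X : Type*) [MeasurableSpace X] where
  T : X ≃ᵐ X
  F : ℝ → X → ℝ → ℝ
  G : ℝ → X → ℝ → ℝ
  L : ℝ
  mF : ∀ s, Measurable (Function.uncurry (F s))
  mG : ∀ s, Measurable (Function.uncurry (G s))
  der : ∀ s x y, HasDerivAt (F s x) (G s x y) y
  L1 : 1 ≤ L
  lo : ∀ s x y, L⁻¹ ≤ G s x y
  hi : ∀ s x y, G s x y ≤ L
  mod : ∀ s, ∀ c : ℝ, 0 < c → ∃ ρ : ℝ, 0 < ρ ∧ ∀ x y y', |y - y'| < ρ →
    |Real.log (G s x y) - Real.log (G s x y')| ≤ c
  κ : ℝ
  κpos : 0 < κ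
  lower : ∀ s s' x y, s ≤ s' → κ * (s' - s) ≤ F s' x y - F s x y
  K : ℝ
  upper : ∀ s s' x y, s ≤ s' → F s' x y - F s x y ≤ K * (s' - s)

namespace Fam

variable {X : Type*} [MeasurableSpace X] (A : Fam X) {m : Measure X}

/-- the system with the parameter `s` -/
def sys (s : ℝ) : Sys X where
  T := A.T
  F := A.F s
  G := A.G s
  L := A.L
  mF := A.mF s
  mG := A.mG s
  der := A.der s
  L1 := A.L1
  lo := A.lo s
  hi := A.hi s
  mod := A.mod s

@[simp] theorem sys_T (s : ℝ) : (A.sys s).T = A.T := rfl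
@[simp] theorem sys_F (s : ℝ) (x : X) (y : ℝ) : (A.sys s).F x y = A.F s x y := rfl
@[simp] theorem sys_G (s : ℝ) : (A.sys s).G = A.G s := rfl
@[simp] theorem sys_L (s : ℝ) : (A.sys s).L = A.L := rfl

theorem F_le {s s' : ℝ} (h : s ≤ s') (x : X) (y : ℝ) : A.F s x y ≤ A.F s' x y := by
  have h1 := A.lower s s' x y h
  have h2 : 0 ≤ A.κ * (s' - s) := mul_nonneg A.κpos.le (sub_nonneg.2 h)
  linarith

theorem F_lt {s s' : ℝ} (h : s < s') (x : X) (y : ℝ) : A.F s x y < A.F s' x y := by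
  have h1 := A.lower s s' x y h.le
  have h2 : 0 < A.κ * (s' - s) := mul_pos A.κpos (sub_pos.2 h)
  linarith

variable [IsProbabilityMeasure m]

/-- dichotomy for graphs at different parameters -/
theorem tri2 (erg : Ergodic A.T m) {s s' : ℝ} (hs : s < s') {φ ψ : X → ℝ}
    (hφ : (A.sys s).Gr m φ) (hψ : (A.sys s').Gr m ψ) :
    (∀ᵐ x ∂m, φ x < ψ x) ∨ (∀ᵐ x ∂m, ψ x < φ x) := by
  have mA : MeasurableSet {x | φ x ≤ ψ x} := measurableSet_le hφ.1 hψ.1
  have h1 : ∀ᵐ x ∂m, φ x ≤ ψ x → φ (A.T x) < ψ (A.T x) := by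
    filter_upwards [hφ.2, hψ.2] with x h1 h2 h3
    simp only [sys_F, sys_T] at h1 h2
    have h4 : A.F s x (φ x) ≤ A.F s x (ψ x) := ((A.sys s).strict x).monotone h3
    have h5 := A.F_lt hs x (ψ x)
    linarith
  have h2 : {x | φ x ≤ ψ x} ≤ᵐ[m] A.T ⁻¹' {x | φ x ≤ ψ x} := by
    filter_upwards [h1] with x h h'
    exact (h h').le
  rcases erg.ae_empty_or_univ_of_ae_le_preimage mA.nullMeasurableSet h2 with h | h
  · right
    have := measure_eq_zero_iff_ae_notMem.1 (ae_eq_empty.1 h)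
    filter_upwards [this] with x hx
    exact not_le.1 hx
  · left
    have h3 : ∀ᵐ x ∂m, φ x ≤ ψ x := by
      have := ae_eq_univ.1 h
      rwa [ae_iff]
    have h4 : ∀ᵐ x ∂m, φ (A.T x) < ψ (A.T x) := by
      filter_upwards [h1, h3] with x a b using a b
    have h5 : ∀ᵐ x ∂(m.map A.T), φ x < ψ x := by
      rw [ae_map_iff A.T.measurable.aemeasurable (measurableSet_lt hφ.1 hψ.1)]
      exact h4
    rwa [erg.toMeasurePreserving.map_eq] at h5

theorem sgn (erg : Ergodic A.T m) {s s' : ℝ} {φ φ' : X → ℝ} (hφ : (A.sys s).Gr m φ) (hσ : s' ≠ s)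
    (hφ' : (A.sys s').Gr m φ') : (∀ᵐ x ∂m, φ x < φ' x) ∨ (∀ᵐ x ∂m, φ' x < φ x) := by
  rcases lt_or_gt_of_ne hσ with h | h
  · exact (A.tri2 erg h hφ' hφ).symm
  · exact A.tri2 erg h hφ hφ'

end Fam

end Pool.Agent.V8H61.MF
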