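import Pool.Agent.H728R2.FA.Defs

/-! # Flows, their attractors, and skew-product flows with circle fibres -/

set_option autoImplicit false

open Set Filter Topology MeasureTheory

namespace Pool.Agent.V8H61.MF

open Pool.Agent.H728R2.OS Pool.Agent.H728R2.FA

section flows

variable {Z : Type*} [TopologicalSpace Z]

/-- `φ` is a continuous flow on `Z`. -/
structure IsFlow (φ : ℝ → Z → Z) : Prop where
  cont : Continuous fun q : ℝ × Z => φ q.1 q.2
  zero : ∀ z, φ 0 z = z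
  add : ∀ (s t : ℝ) (z : Z), φ (s + t) z = φ s (φ t z)

/-- The `ω`-limit set of the forward orbit of `p` under the flow `φ`. -/
def omegaFlow (φ : ℝ → Z → Z) (p : Z) : Set Z :=
  {q | ∀ U ∈ 𝓝 q, ∀ N : ℝ, ∃ t : ℝ, N ≤ t ∧ φ t p ∈ U}

/-- `Λ` is an attractor of the flow `φ`: it is invariant, it contains a point whose forward orbit
is dense in `Λ`, and its basin `{p | ω(p) ⊆ Λ}` has positive measure. -/
def IsAttractorFlow [MeasurableSpace Z] (μ : Measure Z) (φ : ℝ → Z → Z) (Λ : Set Z) : Prop :=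
  (∀ t, φ t '' Λ = Λ) ∧ (∃ x ∈ Λ, Λ ⊆ closure {y | ∃ t : ℝ, 0 ≤ t ∧ y = φ t x}) ∧
    0 < μ {p | omegaFlow φ p ⊆ Λ}

/-- The flow `φ` has finitely many attractors covering the space: the union of their basins has
full measure. -/
def FiniteAttractorsFlow [MeasurableSpace Z] (μ : Measure Z) (φ : ℝ → Z → Z) : Prop :=
  ∃ (k : ℕ) (Λ : Fin k → Set Z), (∀ i, IsAttractorFlow μ φ (Λ i)) ∧
    μ {p | ∀ i, ¬ omegaFlow φ p ⊆ Λ i} = 0

/-- The probability `m` is invariant and ergodic for the flow `ψ`. -/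
structure ErgodicFlow [MeasurableSpace Z] (ψ : ℝ → Z → Z) (m : Measure Z) : Prop where
  pres : ∀ t, MeasurePreserving (ψ t) m m
  erg : ∀ A : Set Z, MeasurableSet A → (∀ t, ψ t ⁻¹' A = A) → m A = 0 ∨ m Aᶜ = 0

end flows

/-- `Φ` is the flow on `B × 𝕋` over the flow `ψ` of `B` whose fibre component solves
`y' = g (ψ t x, y) + θ`. -/
structure SkewFlow {B : Type*} [TopologicalSpace B] (ψ : ℝ → B → B) (g : B × Circ → ℝ) (θ : ℝ)
    (Φ : ℝ → B × Circ → B × Circ) : Prop where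
  flow : IsFlow Φ
  lift : ∀ (x : B) (y : ℝ), ∃ Y : ℝ → ℝ, Y 0 = y ∧
    (∀ t, HasDerivAt Y (g (ψ t x, (Y t : UnitAddCircle)) + θ) t) ∧
    ∀ t, Φ t (x, (y : UnitAddCircle)) = (ψ t x, (Y t : UnitAddCircle))

section lemmas

variable {Z : Type*} [TopologicalSpace Z]

theorem IsFlow.cont1 {φ : ℝ → Z → Z} (h : IsFlow φ) (t : ℝ) : Continuous (φ t) :=
  h.cont.comp (continuous_const.prodMk continuous_id)

theorem IsFlow.neg_apply {φ : ℝ → Z → Z} (h : IsFlow φ) (t : ℝ) (z : Z) : φ (-t) (φ t z) = z := by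
  rw [← h.add, neg_add_cancel, h.zero]

theorem IsFlow.apply_neg {φ : ℝ → Z → Z} (h : IsFlow φ) (t : ℝ) (z : Z) : φ t (φ (-t) z) = z := by
  rw [← h.add, add_neg_cancel, h.zero]

/-- the time-`t` map -/
def IsFlow.homeo {φ : ℝ → Z → Z} (h : IsFlow φ) (t : ℝ) : Z ≃ₜ Z where
  toFun := φ t
  invFun := φ (-t)
  left_inv := h.neg_apply t
  right_inv := h.apply_neg t
  continuous_toFun := h.cont1 t
  continuous_invFun := h.cont1 (-t)

@[simp] theorem IsFlow.homeo_apply {φ : ℝ → Z → Z} (h : IsFlow φ) (t : ℝ) (z : Z) :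
    h.homeo t z = φ t z := rfl

theorem IsFlow.iter {φ : ℝ → Z → Z} (h : IsFlow φ) (t : ℝ) (n : ℕ) (z : Z) :
    (φ t)^[n] z = φ (n * t) z := by
  induction n with
  | zero => simp [h.zero]
  | succ n ih =>
    rw [Function.iterate_succ_apply', ih, ← h.add]
    congr 1
    push_cast
    ring

theorem IsFlow.comm {φ : ℝ → Z → Z} (h : IsFlow φ) (s t : ℝ) (z : Z) :
    φ s (φ t z) = φ t (φ s z) := by
  rw [← h.add, ← h.add, add_comm]

/-- the `ω`-limit set of the flow and of the time-`a` map -/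
theorem IsFlow.omega {Z : Type*} [MetricSpace Z] [CompactSpace Z] {φ : ℝ → Z → Z}
    (h : IsFlow φ) {a : ℝ} (ha : 0 < a) (p q : Z) (hq : q ∈ omegaFlow φ p) :
    ∃ r ∈ Icc 0 a, ∃ z ∈ omegaLim (φ a) p, φ r z = q := by
  -- a sequence of times
  have h1 : ∀ n : ℕ, ∃ t : ℝ, (n : ℝ) ≤ t ∧ dist (φ t p) q < 1 / ((n : ℝ) + 1) := by
    intro n
    obtain ⟨t, ht, h2⟩ := hq (Metric.ball q (1 / ((n : ℝ) + 1)))
      (Metric.ball_mem_nhds q (by positivity)) n
    exact ⟨t, ht, h2⟩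
  choose t ht htd using h1
  have htn : ∀ n, 0 ≤ t n := fun n => (Nat.cast_nonneg n).trans (ht n)
  let k : ℕ → ℕ := fun n => ⌊t n / a⌋₊
  let r : ℕ → ℝ := fun n => t n - k n * a
  have hr : ∀ n, r n ∈ Icc 0 a := by
    intro n
    have h2 : (k n : ℝ) ≤ t n / a := Nat.floor_le (div_nonneg (htn n) ha.le)
    have h3 : t n / a < k n + 1 := Nat.lt_floor_add_one _
    rw [le_div_iff₀ ha] at h2
    rw [div_lt_iff₀ ha] at h3
    constructor
    · show 0 ≤ t n - k n * a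
      linarith
    · show t n - k n * a ≤ a
      linarith
  have hkt : Tendsto k atTop atTop := by
    refine tendsto_nat_floor_atTop.comp ?_
    refine Tendsto.atTop_div_const ha ?_
    exact tendsto_atTop_mono ht tendsto_natCast_atTop_atTop
  have hcomp : IsCompact ((Icc 0 a) ×ˢ (univ : Set Z)) := isCompact_Icc.prod isCompact_univ
  obtain ⟨⟨r0, z0⟩, hrz, σ, hσ, hlim⟩ := hcomp.tendsto_subseq
    (x := fun n => (r n, φ (k n * a) p)) (fun n => ⟨hr n, mem_univ _⟩)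
  have hlim2 : Tendsto (fun n => φ (t (σ n)) p) atTop (𝓝 (φ r0 z0)) := by
    have h2 := (h.cont.tendsto (r0, z0)).comp hlim
    refine h2.congr fun n => ?_
    show φ (r (σ n)) (φ (k (σ n) * a) p) = φ (t (σ n)) p
    rw [← h.add]
    congr 1
    show t (σ n) - k (σ n) * a + k (σ n) * a = t (σ n)
    ring
  have hlim3 : Tendsto (fun n => φ (t n) p) atTop (𝓝 q) := by
    rw [tendsto_iff_dist_tendsto_zero]
    refine squeeze_zero (fun n => dist_nonneg) (fun n => (htd n).le) ?_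
    exact tendsto_one_div_add_atTop_nhds_zero_nat
  refine ⟨r0, hrz.1, z0, ?_, tendsto_nhds_unique hlim2 (hlim3.comp hσ.tendsto_atTop)⟩
  intro U hU N
  have h4 : Tendsto (fun n => φ (k (σ n) * a) p) atTop (𝓝 z0) :=
    (continuous_snd.tendsto (r0, z0)).comp hlim
  obtain ⟨n, h5, h6⟩ := ((h4.eventually hU).and
    ((hkt.comp hσ.tendsto_atTop).eventually (eventually_ge_atTop N))).exists
  refine ⟨k (σ n), h6, ?_⟩
  rw [h.iter]
  exact h5

/-- **From the time-`a` map to the flow.** -/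
theorem IsFlow.finite {Z : Type*} [MetricSpace Z] [CompactSpace Z] [MeasurableSpace Z]
    {μ : Measure Z} {φ : ℝ → Z → Z} (h : IsFlow φ) {a : ℝ} (ha : 0 < a)
    (hf : FiniteAttractors μ (φ a)) : FiniteAttractorsFlow μ φ := by
  obtain ⟨k, Λ, hΛ, hcov⟩ := hf
  let S : Fin k → Set Z := fun i => {z | ∃ r : ℝ, ∃ y ∈ Λ i, φ r y = z}
  have hsub : ∀ i p, omegaLim (φ a) p ⊆ Λ i → omegaFlow φ p ⊆ S i := by
    intro i p hp q hq
    obtain ⟨r, -, z, hz, rfl⟩ := h.omega ha p q hq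
    exact ⟨r, z, hp hz, rfl⟩
  have hback' : ∀ i, ∀ n : ℕ, ∀ y ∈ Λ i, ∃ y' ∈ Λ i, φ (n * a) y' = y := by
    intro i n y hy
    induction n generalizing y with
    | zero => exact ⟨y, hy, by simp [h.zero]⟩
    | succ n ih =>
      obtain ⟨y1, h1, rfl⟩ := ih y hy
      rw [← (hΛ i).1] at h1
      obtain ⟨y2, h2, rfl⟩ := h1
      refine ⟨y2, h2, ?_⟩
      rw [← h.add]
      congr 1
      push_cast
      ring
  refine ⟨k, S, fun i => ⟨fun t => ?_, ?_, ?_⟩, ?_⟩
  · apply Subset.antisymm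
    · rintro _ ⟨_, ⟨r, y, hy, rfl⟩, rfl⟩
      exact ⟨t + r, y, hy, h.add t r y⟩
    · rintro _ ⟨r, y, hy, rfl⟩
      refine ⟨φ (r - t) y, ⟨r - t, y, hy, rfl⟩, ?_⟩
      rw [← h.add]
      congr 1
      ring
  · obtain ⟨x, hx, hxd⟩ := (hΛ i).2.1
    refine ⟨x, ⟨0, x, hx, h.zero x⟩, ?_⟩
    rintro _ ⟨r, y, hy, rfl⟩
    obtain ⟨N, hN⟩ := exists_nat_ge (|r| / a)
    have hN' : |r| ≤ N * a := by
      rw [div_le_iff₀ ha] at hN
      exact hN
    obtain ⟨y2, hy2, rfl⟩ := hback' i N y hy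
    rw [← h.add]
    have hpos : 0 ≤ r + N * a := by
      have := neg_abs_le r
      linarith
    have h3 : φ (r + N * a) y2 ∈ closure (φ (r + N * a) '' (range fun n : ℕ => (φ a)^[n] x)) :=
      image_closure_subset_closure_image (h.cont1 _) (mem_image_of_mem _ (hxd hy2))
    refine closure_mono ?_ h3
    rintro _ ⟨_, ⟨j, rfl⟩, rfl⟩
    refine ⟨r + N * a + j * a, by positivity, ?_⟩
    show φ (r + N * a) ((φ a)^[j] x) = _
    rw [h.iter]
    exact (h.add _ _ _).symm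
  · exact (hΛ i).2.2.trans_le (measure_mono fun p hp => hsub i p hp)
  · refine measure_mono_null ?_ hcov
    intro p hp i hi
    exact hp i (hsub i p hi)

end lemmas

end Pool.Agent.V8H61.MF
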