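import Pool.Agent.V8H61.MF.Ext
import Pool.Agent.V8H61.SK.Dense

/-! # Monotone families: finitely many attractors for a dense set of parameters -/

set_option autoImplicit false
set_option linter.unusedSectionVars false

open Set Filter Topology MeasureTheory

namespace Pool.Agent.V8H61.MF

open Pool.Agent.TH525.PF Pool.Agent.TH525.PF.Sys Pool.Agent.V8H61.SK
open Pool.Agent.H728R2.OS Pool.Agent.H728R2.FA

namespace Fam

variable {X : Type*} [MeasurableSpace X] (A : Fam X) {m : Measure X}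

/-- the fibre maps depend continuously on the parameter and the point -/
theorem cont2 (x : X) : Continuous fun q : ℝ × ℝ => A.F q.1 x q.2 := by
  rw [continuous_iff_continuousAt]
  intro q0
  have h2 : Tendsto (fun q : ℝ × ℝ => A.F q0.1 x q.2) (𝓝 q0) (𝓝 (A.F q0.1 x q0.2)) :=
    (((A.sys q0.1).cont x).comp continuous_snd).tendsto q0
  have h3 : Tendsto (fun q : ℝ × ℝ => |A.K * (q.1 - q0.1)| ) (𝓝 q0) (𝓝 0) := by
    have : Continuous fun q : ℝ × ℝ => |A.K * (q.1 - q0.1)| := by fun_prop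
    have h := this.tendsto q0
    simpa using h
  have h4 : Tendsto (fun q : ℝ × ℝ => A.F q.1 x q.2 - A.F q0.1 x q.2) (𝓝 q0) (𝓝 0) := by
    refine squeeze_zero_norm (fun q => ?_) h3
    rw [Real.norm_eq_abs]
    rcases le_total q0.1 q.1 with h | h
    · rw [abs_of_nonneg (sub_nonneg.2 (A.F_le h x q.2))]
      exact (A.upper _ _ x q.2 h).trans (le_abs_self _)
    · rw [abs_sub_comm, abs_of_nonneg (sub_nonneg.2 (A.F_le h x q.2))]
      have h5 : A.K * (q0.1 - q.1) = -(A.K * (q.1 - q0.1)) := by ring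
      have := A.upper _ _ x q.2 h
      rw [h5] at this
      exact this.trans (neg_le_abs _)
  have h5 := h4.add h2
  show Tendsto (fun q : ℝ × ℝ => A.F q.1 x q.2) (𝓝 q0) (𝓝 (A.F q0.1 x q0.2))
  simpa using h5

theorem it_cont (n : ℕ) (x : X) (y : ℝ) : Continuous fun s => (A.sys s).it n x y := by
  induction n with
  | zero => exact continuous_const
  | succ n ih =>
    show Continuous fun s => A.F s ((A.T)^[n] x) ((A.sys s).it n x y)
    exact (A.cont2 _).comp (continuous_id.prodMk ih)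

theorem it_le (per : ∀ s x y, A.F s x (y + 1) = A.F s x y + 1) {a b : ℝ} (hab : a ≤ b)
    (n : ℕ) (x : X) {w z : ℝ} (h : w ≤ z) : (A.sys a).it n x w ≤ (A.sys b).it n x z := by
  have := A.gap per hab 0 n x (w := w) (z := z) (by simpa using h)
  simpa using this

/-- If the rotation numbers differ, then the orbits of the lifts separate. -/
theorem separate [IsProbabilityMeasure m] (erg : Ergodic A.T m)
    (per : ∀ s x y, A.F s x (y + 1) = A.F s x y + 1) {a b : ℝ} (hab : a ≤ b)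
    (hne : ¬ A.Locked m a b) :
    ∀ᵐ x ∂m, ∀ y, ∃ N : ℕ, ∀ n, N ≤ n → (A.sys a).it n x y + 1 ≤ (A.sys b).it n x y := by
  have hk : ∃ k : ℕ, m {x | 2 ≤ A.dif a b k x} ≠ 0 := by
    by_contra hcon
    push Not at hcon
    apply hne
    have h1 : ∀ᵐ x ∂m, ∀ k : ℕ, ¬ (2 ≤ A.dif a b k x) := by
      rw [ae_all_iff]
      intro k
      exact measure_eq_zero_iff_ae_notMem.1 (hcon k)
    filter_upwards [h1] with x hx
    have h2 : Tendsto (fun n : ℕ => 2 / (n : ℝ)) atTop (𝓝 0) :=
      tendsto_const_div_atTop_nhds_zero_nat 2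
    refine squeeze_zero (fun n => ?_) (fun n => ?_) h2
    · exact div_nonneg (A.dif_nonneg per hab n x) (Nat.cast_nonneg n)
    · refine div_le_div_of_nonneg_right ?_ (Nat.cast_nonneg n)
      have := hx n
      push Not at this
      linarith
  obtain ⟨k, hk⟩ := hk
  have mP : MeasurableSet {x | 2 ≤ A.dif a b k x} :=
    measurableSet_le measurable_const (A.dif_meas a b k)
  filter_upwards [ae_frequently erg mP hk] with x hx y
  obtain ⟨n, hn⟩ := hx.exists
  refine ⟨n + k, fun l hl => ?_⟩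
  obtain ⟨j, rfl⟩ := Nat.exists_eq_add_of_le hl
  have hn' : 2 ≤ A.dif a b k (A.T^[n] x) := hn
  have h1 := A.dif_lower per a b k (A.T^[n] x) ((A.sys a).it n x y)
  have h2 : (A.sys b).it k (A.T^[n] x) ((A.sys a).it n x y) ≤
      (A.sys b).it k (A.T^[n] x) ((A.sys b).it n x y) :=
    A.it_le per le_rfl k _ (A.it_le per hab n x le_rfl)
  have h3 : (A.sys a).it k (A.T^[n] x) ((A.sys a).it n x y) + ((1 : ℤ) : ℝ) ≤
      (A.sys b).it k (A.T^[n] x) ((A.sys b).it n x y) := by
    push_cast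
    linarith
  have h4 := A.gap per hab 1 j (A.T^[n + k] x) h3
  rw [Sys.it_add, Sys.it_add, Sys.it_add, Sys.it_add, sys_T, sys_T]
  push_cast at h4
  exact h4

theorem locked_mono (per : ∀ s x y, A.F s x (y + 1) = A.F s x y + 1) {a a' b' b : ℝ}
    (h1 : a ≤ a') (h2 : a' ≤ b') (h3 : b' ≤ b) (h : A.Locked m a b) : A.Locked m a' b' := by
  filter_upwards [h] with x hx
  refine squeeze_zero (fun n => ?_) (fun n => ?_) hx
  · exact div_nonneg (A.dif_nonneg per h2 n x) (Nat.cast_nonneg n)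
  · refine div_le_div_of_nonneg_right ?_ (Nat.cast_nonneg n)
    exact sub_le_sub (A.it_le per h3 n x le_rfl) (A.it_le per h1 n x le_rfl)

end Fam

section main

variable {B : Type*} [MetricSpace B] [CompactSpace B] [MeasurableSpace B] [BorelSpace B]
  {m : Measure B} [IsProbabilityMeasure m]

omit [CompactSpace B] [BorelSpace B] in
theorem fam_iter (A : Fam B) (T : B ≃ₜ B) (hT : ∀ x, A.T x = T x)
    (f : ℝ → (B × Circ) ≃ₜ (B × Circ))
    (hf : ∀ (s : ℝ) (x : B) (y : ℝ),
      f s (x, (y : UnitAddCircle)) = (T x, (A.F s x y : UnitAddCircle)))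
    (s : ℝ) (n : ℕ) (x : B) (y : ℝ) :
    (f s)^[n] (x, (y : UnitAddCircle)) = (T^[n] x, ((A.sys s).it n x y : UnitAddCircle)) := by
  have hTT : (A.T : B → B) = T := funext hT
  induction n with
  | zero => rfl
  | succ n ih =>
    rw [Function.iterate_succ_apply', ih, Function.iterate_succ_apply', hf, Sys.it_succ,
      Fam.sys_T, hTT]
    rfl

omit [CompactSpace B] [MeasurableSpace B] [BorelSpace B] in
theorem fam_continuous (f : ℝ → (B × Circ) ≃ₜ (B × Circ))
    (hc : Continuous fun q : ℝ × (B × Circ) => f q.1 q.2) (n : ℕ)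
    (p : B × Circ) : Continuous fun s : ℝ => (f s)^[n] p := by
  induction n with
  | zero => exact continuous_const
  | succ n ih =>
    have h1 : (fun s : ℝ => (f s)^[n + 1] p) = fun s : ℝ => f s ((f s)^[n] p) := by
      funext s
      rw [Function.iterate_succ_apply']
    rw [h1]
    exact hc.comp (continuous_id.prodMk ih)

/-- **Transitivity for a generic parameter of an interval without mode-locking.** -/
theorem transitive_param (A : Fam B) (T : B ≃ₜ B) (hT : ∀ x, A.T x = T x) (erg : Ergodic T m)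
    (f : ℝ → (B × Circ) ≃ₜ (B × Circ))
    (hc : Continuous fun q : ℝ × (B × Circ) => f q.1 q.2)
    (hf : ∀ (s : ℝ) (x : B) (y : ℝ),
      f s (x, (y : UnitAddCircle)) = (T x, (A.F s x y : UnitAddCircle)))
    (per : ∀ s x y, A.F s x (y + 1) = A.F s x y + 1)
    {J : Set ℝ} (hJo : IsOpen J)
    (hJ : ∀ a ∈ J, ∀ b ∈ J, a < b → Icc a b ⊆ J → ¬ A.Locked m a b) :
    ∀ᶠ θ in residual ℝ, θ ∈ J → ∃ p ∈ Full m,
      Full m ⊆ closure (range fun n : ℕ => (f θ)^[n] p) := by
  classical
  have hTT : (A.T : B → B) = T := funext hT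
  have ergA : Ergodic A.T m := by rw [hTT]; exact erg
  set 𝓑 := TopologicalSpace.countableBasis (B × Circ) with h𝓑
  have hBc : 𝓑.Countable := TopologicalSpace.countable_countableBasis _
  have hBb : TopologicalSpace.IsTopologicalBasis 𝓑 := TopologicalSpace.isBasis_countableBasis _
  -- the good parameters for a pair of open sets
  set W : Set (B × Circ) → Set (B × Circ) → Set ℝ := fun U V =>
    {θ | ∃ p ∈ U ∩ Full m, ∃ n : ℕ, (f θ)^[n] p ∈ V} with hW
  have hWo : ∀ U V, IsOpen V → IsOpen (W U V) := by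
    intro U V hV
    have : W U V = ⋃ p ∈ U ∩ Full m, ⋃ n : ℕ, (fun θ : ℝ => (f θ)^[n] p) ⁻¹' V := by
      ext θ
      simp only [hW, mem_ofPred_eq, mem_iUnion, exists_prop, mem_preimage]
    rw [this]
    exact isOpen_biUnion fun p _ => isOpen_iUnion fun n => hV.preimage (fam_continuous f hc n p)
  have hsupp : ∀ᵐ x ∂m, x ∈ m.support := m.support_mem_ae
  have hWd : ∀ U V, IsOpen U → IsOpen V → (U ∩ Full m).Nonempty → (V ∩ Full m).Nonempty →
      J ⊆ closure (W U V) := by
    intro U V hU hV hUne hVne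
    obtain ⟨⟨x0, c0⟩, h0U, h0⟩ := hUne
    obtain ⟨⟨x1, c1⟩, h1V, h1⟩ := hVne
    obtain ⟨U1, hU1, U2, hU2, hU12⟩ := mem_nhds_prod_iff.1 (hU.mem_nhds h0U)
    obtain ⟨V1, hV1, V2, hV2, hV12⟩ := mem_nhds_prod_iff.1 (hV.mem_nhds h1V)
    have p0 : 0 < m U1 := (Measure.mem_support_iff_forall x0).1 h0.1 U1 hU1
    obtain ⟨V1', hV1', hV1o, hxV1⟩ := mem_nhds_iff.1 hV1
    have p1 : 0 < m V1' := (Measure.mem_support_iff_forall x1).1 h1.1 V1' (hV1o.mem_nhds hxV1)
    intro θ0 hθ0
    rw [Metric.mem_closure_iff]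
    intro ε hε
    obtain ⟨δ, hδ, hball⟩ := Metric.isOpen_iff.1 hJo θ0 hθ0
    set η := min (δ / 2) (ε / 2) with hη
    have hηp : 0 < η := lt_min (half_pos hδ) (half_pos hε)
    have hηδ : η < δ := (min_le_left _ _).trans_lt (half_lt_self hδ)
    have hηε : η < ε := (min_le_right _ _).trans_lt (half_lt_self hε)
    have hsub : Icc θ0 (θ0 + η) ⊆ J := by
      intro t ht
      apply hball
      rw [Metric.mem_ball, Real.dist_eq, abs_of_nonneg (by linarith [ht.1])]
      linarith [ht.2]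
    have hnot := hJ θ0 hθ0 (θ0 + η) (hsub ⟨by linarith, le_rfl⟩) (by linarith) hsub
    have hsep := A.separate ergA per (show θ0 ≤ θ0 + η by linarith) hnot
    have hrec := ae_frequently erg hV1o.measurableSet p1.ne'
    have hex : ∃ x ∈ U1, x ∈ m.support ∧ (∀ y, ∃ N : ℕ, ∀ n, N ≤ n →
        (A.sys θ0).it n x y + 1 ≤ (A.sys (θ0 + η)).it n x y) ∧
        ∃ᶠ n in atTop, T^[n] x ∈ V1' := by
      by_contra hcon
      push Not at hcon
      apply p0.ne'
      rw [measure_eq_zero_iff_ae_notMem]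
      filter_upwards [hsupp, hsep, hrec] with x a1 a2 a3 a4
      exact a3 (hcon x a4 a1 a2)
    obtain ⟨x, hxU, hxs, hxsep, hxrec⟩ := hex
    obtain ⟨y, rfl⟩ : ∃ t : ℝ, (t : UnitAddCircle) = c0 := QuotientAddGroup.mk_surjective c0
    obtain ⟨z, rfl⟩ : ∃ t : ℝ, (t : UnitAddCircle) = c1 := QuotientAddGroup.mk_surjective c1
    obtain ⟨N, hN⟩ := hxsep y
    obtain ⟨n, hn, hnV⟩ := (frequently_atTop.1 hxrec) N
    have hgap := hN n hn
    -- choose the lift of `z` in the window
    set z' := z + ⌈(A.sys θ0).it n x y - z⌉ with hz'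
    have hz1 : (A.sys θ0).it n x y ≤ z' := by
      have := Int.le_ceil ((A.sys θ0).it n x y - z)
      rw [hz']; linarith
    have hz2 : z' ≤ (A.sys (θ0 + η)).it n x y := by
      have := Int.ceil_lt_add_one ((A.sys θ0).it n x y - z)
      rw [hz']; linarith
    obtain ⟨θ, hθ, hθz⟩ := intermediate_value_Icc (show θ0 ≤ θ0 + η by linarith)
      (A.it_cont n x y).continuousOn ⟨hz1, hz2⟩
    refine ⟨θ, ⟨(x, (y : UnitAddCircle)), ⟨hU12 ⟨hxU, mem_of_mem_nhds hU2⟩, hxs, mem_univ _⟩, n,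
      ?_⟩, ?_⟩
    · rw [fam_iter A T hT f hf]
      have hθz' : (A.sys θ).it n x y = z' := hθz
      rw [hθz']
      apply hV12
      refine ⟨hV1' hnV, ?_⟩
      have e : (z' : UnitAddCircle) = (z : UnitAddCircle) := by
        rw [hz', AddCircle.coe_add]
        have : (((⌈(A.sys θ0).it n x y - z⌉ : ℤ) : ℝ) : UnitAddCircle) = 0 := by
          rw [AddCircle.coe_eq_zero_iff]
          exact ⟨⌈(A.sys θ0).it n x y - z⌉, by simp⟩
        rw [this, add_zero]
      show (z' : UnitAddCircle) ∈ V2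
      rw [e]
      exact mem_of_mem_nhds hV2
    · rw [Real.dist_eq, abs_sub_comm, abs_of_nonneg (by linarith [hθ.1])]
      linarith [hθ.2]
  -- the residual set
  have hres : ∀ᶠ θ in residual ℝ, ∀ U ∈ 𝓑, ∀ V ∈ 𝓑, (U ∩ Full m).Nonempty →
      (V ∩ Full m).Nonempty → θ ∈ J → θ ∈ W U V := by
    rw [eventually_countable_ball hBc]
    intro U hU
    rw [eventually_countable_ball hBc]
    intro V hV
    by_cases hUne : (U ∩ Full m).Nonempty
    swap
    · exact Eventually.of_forall fun θ h => absurd h hUne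
    by_cases hVne : (V ∩ Full m).Nonempty
    swap
    · exact Eventually.of_forall fun θ _ h => absurd h hVne
    have hd := hWd U V (hBb.isOpen hU) (hBb.isOpen hV) hUne hVne
    have hopen : IsOpen (W U V ∪ (closure J)ᶜ) :=
      (hWo U V (hBb.isOpen hV)).union isClosed_closure.isOpen_compl
    have hdense : Dense (W U V ∪ (closure J)ᶜ) := by
      intro θ
      by_cases hθ : θ ∈ closure J
      · have h1 : closure J ⊆ closure (W U V) := closure_minimal hd isClosed_closure
        exact closure_mono subset_union_left (h1 hθ)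
      · exact subset_closure (Or.inr hθ)
    filter_upwards [residual_of_dense_open hopen hdense] with θ hθ _ _ hθJ
    rcases hθ with h | h
    · exact h
    · exact absurd (subset_closure hθJ) h
  filter_upwards [hres] with θ hθ hθJ
  -- Baire on the attractor
  have hcomp : CompactSpace (Full m) := isCompact_iff_compactSpace.1 full_closed.isCompact
  have hne : Nonempty (Full m) := by
    have : ∃ x, x ∈ m.support := by
      by_contra hcon
      push Not at hcon
      have h1 : ∀ᵐ x ∂m, False := hsupp.mono fun x hx => hcon x hx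
      exact (IsProbabilityMeasure.ne_zero m) (by simpa using h1)
    obtain ⟨x, hx⟩ := this
    exact ⟨⟨(x, 0), hx, mem_univ _⟩⟩
  set O : Set (B × Circ) → Set (Full m) := fun V =>
    {p | ∃ n : ℕ, (f θ)^[n] (p : B × Circ) ∈ V} with hO
  have hOo : ∀ V, IsOpen V → IsOpen (O V) := by
    intro V hV
    have : O V = ⋃ n : ℕ, (fun p : Full m => (f θ)^[n] (p : B × Circ)) ⁻¹' V := by
      ext p
      simp only [hO, mem_ofPred_eq, mem_iUnion, mem_preimage]
    rw [this]
    exact isOpen_iUnion fun n => hV.preimage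
      (((f θ).continuous.iterate n).comp continuous_subtype_val)
  have hOd : ∀ V ∈ 𝓑, (V ∩ Full m).Nonempty → Dense (O V) := by
    intro V hV hVne p
    rw [mem_closure_iff]
    intro A hA hpA
    obtain ⟨A', hA', rfl⟩ := isOpen_induced_iff.1 hA
    obtain ⟨U, hU, hpU, hUA⟩ := hBb.mem_nhds_iff.1 (hA'.mem_nhds hpA)
    obtain ⟨q, ⟨hqU, hqF⟩, n, hn⟩ := hθ U hU V hV ⟨p, hpU, p.2⟩ hVne hθJ
    exact ⟨⟨q, hqF⟩, hUA hqU, n, hn⟩
  have hBaire : Dense (⋂ V ∈ {V | V ∈ 𝓑 ∧ (V ∩ Full m).Nonempty}, O V) := by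
    refine dense_biInter_of_isOpen (fun V hV => hOo V (hBb.isOpen hV.1)) ?_ fun V hV =>
      hOd V hV.1 hV.2
    exact hBc.mono fun V hV => hV.1
  obtain ⟨p, hp⟩ := hBaire.nonempty
  refine ⟨p, p.2, fun q hq => ?_⟩
  rw [mem_closure_iff_nhds]
  intro V hV
  obtain ⟨V', hV', hqV', hV'V⟩ := hBb.mem_nhds_iff.1 hV
  simp only [mem_iInter] at hp
  obtain ⟨n, hn⟩ := hp V' ⟨hV', ⟨q, hqV', hq⟩⟩
  exact ⟨_, hV'V hn, n, rfl⟩

/-- **Finitely many attractors for a dense set of parameters.** -/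
theorem dense_finite (A : Fam B) (T : B ≃ₜ B) (hT : ∀ x, A.T x = T x) (erg : Ergodic T m)
    (f : ℝ → (B × Circ) ≃ₜ (B × Circ))
    (hc : Continuous fun q : ℝ × (B × Circ) => f q.1 q.2)
    (hf : ∀ (s : ℝ) (x : B) (y : ℝ),
      f s (x, (y : UnitAddCircle)) = (T x, (A.F s x y : UnitAddCircle)))
    (per : ∀ s x y, A.F s x (y + 1) = A.F s x y + 1)
    (μ : Measure (B × Circ)) (hμ : μ ≪ m.prod volume) (hμ' : m.prod volume ≪ μ) :
    Dense {θ : ℝ | FiniteAttractors μ (f θ) ∧
      ((∃ ε : ℝ, 0 < ε ∧ A.Locked m (θ - ε) (θ + ε)) ∨ ∃ p ∈ Full m,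
        Full m ⊆ closure (range fun n : ℕ => (f θ)^[n] p))} := by
  have hfst : ∀ (θ : ℝ) (p : B × Circ), (f θ p).1 = T p.1 := by
    intro θ p
    obtain ⟨t, ht⟩ : ∃ t : ℝ, (t : UnitAddCircle) = p.2 := QuotientAddGroup.mk_surjective p.2
    have e : p = (p.1, (t : UnitAddCircle)) := by rw [ht]
    rw [e, hf]
  intro θ0
  rw [Metric.mem_closure_iff]
  intro ε hε
  by_cases hML : ∃ t ∈ Metric.ball θ0 ε, ∃ ε : ℝ, 0 < ε ∧ A.Locked m (t - ε) (t + ε)
  · obtain ⟨t, ht, ε', hε', hsame⟩ := hML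
    have h1 := locked_ae A T hT erg f hf per μ hμ hμ' hsame
    have hopen : IsOpen (Metric.ball θ0 ε ∩ Ioo (t - ε') (t + ε')) :=
      Metric.isOpen_ball.inter isOpen_Ioo
    have hpos : 0 < volume (Metric.ball θ0 ε ∩ Ioo (t - ε') (t + ε')) :=
      hopen.measure_pos volume ⟨t, ht, by constructor <;> linarith⟩
    have hex : ∃ s ∈ Metric.ball θ0 ε ∩ Ioo (t - ε') (t + ε'),
        FiniteAttractors μ (f s) := by
      by_contra hcon
      push Not at hcon
      apply hpos.ne'
      rw [measure_eq_zero_iff_ae_notMem]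
      filter_upwards [h1] with s hs hs'
      exact hcon s hs' (hs hs'.2.1.le hs'.2.2.le)
    obtain ⟨s, ⟨hs1, hs2⟩, hs3⟩ := hex
    refine ⟨s, ⟨hs3, Or.inl ⟨min (s - (t - ε')) (t + ε' - s), ?_, ?_⟩⟩, ?_⟩
    · exact lt_min (by linarith [hs2.1]) (by linarith [hs2.2])
    · have e1 := min_le_left (s - (t - ε')) (t + ε' - s)
      have e2 := min_le_right (s - (t - ε')) (t + ε' - s)
      have e3 : 0 < min (s - (t - ε')) (t + ε' - s) :=
        lt_min (by linarith [hs2.1]) (by linarith [hs2.2])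
      exact A.locked_mono per (by linarith) (by linarith) (by linarith) hsame
    · rw [dist_comm]
      exact hs1
  · push Not at hML
    have hJ : ∀ a ∈ Metric.ball θ0 ε, ∀ b ∈ Metric.ball θ0 ε, a < b →
        Icc a b ⊆ Metric.ball θ0 ε → ¬ A.Locked m a b := by
      intro a _ b _ hab hsub hsame
      refine hML ((a + b) / 2) (hsub ⟨by linarith, by linarith⟩) ((b - a) / 2) (by linarith) ?_
      have e1 : (a + b) / 2 - (b - a) / 2 = a := by ring
      have e2 : (a + b) / 2 + (b - a) / 2 = b := by ring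
      rw [e1, e2]
      exact hsame
    have hres := transitive_param A T hT erg f hc hf per
      (Metric.isOpen_ball (x := θ0) (ε := ε)) hJ
    have hd : Dense {θ : ℝ | θ ∈ Metric.ball θ0 ε → ∃ p ∈ Full m,
        Full m ⊆ closure (range fun n : ℕ => (f θ)^[n] p)} := dense_of_mem_residual hres
    obtain ⟨θ, hθ1, hθ2⟩ := hd.exists_mem_open Metric.isOpen_ball
      ⟨θ0, Metric.mem_ball_self hε⟩
    have htr := hθ1 hθ2
    refine ⟨θ, ⟨finite_of_transitive T erg (f θ) (hfst θ) htr μ hμ hμ', Or.inr htr⟩, ?_⟩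
    rw [dist_comm]
    exact hθ2

end main

end Pool.Agent.V8H61.MF
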