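import Mathlib

/-! # Linear equations of dimension one -/

set_option autoImplicit false

open Set Filter Topology MeasureTheory intervalIntegral

namespace Pool.Agent.V8H61.MF

/-- variation of constants -/
theorem lin {q e D : ℝ → ℝ} (hq : Continuous q) (he : Continuous e)
    (hD : ∀ t, HasDerivAt D (q t * D t + e t) t) (t : ℝ) :
    D t = Real.exp (∫ s in (0 : ℝ)..t, q s) *
      (D 0 + ∫ s in (0 : ℝ)..t, e s * Real.exp (-∫ r in (0 : ℝ)..s, q r)) := by
  set Q : ℝ → ℝ := fun t => ∫ s in (0 : ℝ)..t, q s with hQ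
  have hQd : ∀ t, HasDerivAt Q (q t) t := fun t =>
    integral_hasDerivAt_right (hq.intervalIntegrable _ _) hq.aestronglyMeasurable.stronglyMeasurableAtFilter
      hq.continuousAt
  have hQc : Continuous Q := continuous_iff_continuousAt.2 fun t => (hQd t).continuousAt
  have hk : Continuous fun s => e s * Real.exp (-Q s) := by fun_prop
  have hI : ∀ t, HasDerivAt (fun t => ∫ s in (0 : ℝ)..t, e s * Real.exp (-Q s))
      (e t * Real.exp (-Q t)) t := fun t =>
    integral_hasDerivAt_right (hk.intervalIntegrable _ _) hk.aestronglyMeasurable.stronglyMeasurableAtFilter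
      hk.continuousAt
  have hE : ∀ t, HasDerivAt (fun t => D t * Real.exp (-Q t) -
      ∫ s in (0 : ℝ)..t, e s * Real.exp (-Q s)) 0 t := by
    intro t
    have h1 := ((hD t).mul ((hQd t).neg.exp)).sub (hI t)
    refine h1.congr_deriv ?_
    simp only [Pi.neg_apply]
    ring
  have hconst := is_const_of_deriv_eq_zero (fun t => (hE t).differentiableAt)
    (fun t => (hE t).deriv) t 0
  have h0 : Q 0 = 0 := by simp [hQ]
  simp only [h0, neg_zero, Real.exp_zero, mul_one, integral_same, sub_zero] at hconst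
  have h2 : D t * Real.exp (-Q t) = D 0 + ∫ s in (0 : ℝ)..t, e s * Real.exp (-Q s) := by linarith
  have h3 : Real.exp (Q t) * Real.exp (-Q t) = 1 := by
    rw [← Real.exp_add, add_neg_cancel, Real.exp_zero]
  show D t = Real.exp (Q t) * (D 0 + ∫ s in (0 : ℝ)..t, e s * Real.exp (-Q s))
  rw [← h2]
  calc D t = D t * (Real.exp (Q t) * Real.exp (-Q t)) := by rw [h3, mul_one]
    _ = _ := by ring

theorem abs_int_le {q : ℝ → ℝ} {L : ℝ} (hL : ∀ t, |q t| ≤ L) (a t : ℝ) (hat : a ≤ t) :
    |∫ s in a..t, q s| ≤ L * (t - a) := by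
  have := norm_integral_le_of_norm_le_const (a := a) (b := t) (f := q) (C := L)
    (fun s _ => hL s)
  rwa [Real.norm_eq_abs, abs_of_nonneg (sub_nonneg.2 hat)] at this

/-- bounds for the solution -/
theorem lin_bound {q e D : ℝ → ℝ} (hq : Continuous q) (he : Continuous e)
    (hD : ∀ t, HasDerivAt D (q t * D t + e t) t) {L ε : ℝ} (hL : ∀ t, |q t| ≤ L) {t : ℝ}
    (ht : 0 ≤ t) (hε : ∀ s ∈ Icc 0 t, |e s| ≤ ε) :
    |D t| ≤ Real.exp (L * t) * (|D 0| + ε * t * Real.exp (L * t)) := by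
  have hL0 : 0 ≤ L := (abs_nonneg _).trans (hL 0)
  have hε0 : 0 ≤ ε := (abs_nonneg _).trans (hε 0 ⟨le_rfl, ht⟩)
  rw [lin hq he hD t, abs_mul, abs_of_pos (Real.exp_pos _)]
  have h1 : Real.exp (∫ s in (0 : ℝ)..t, q s) ≤ Real.exp (L * t) := by
    rw [Real.exp_le_exp]
    have := abs_int_le hL 0 t ht
    rw [sub_zero] at this
    exact (le_abs_self _).trans this
  have h2 : |∫ s in (0 : ℝ)..t, e s * Real.exp (-∫ r in (0 : ℝ)..s, q r)| ≤
      ε * t * Real.exp (L * t) := by
    have := norm_integral_le_of_norm_le_const (a := 0) (b := t)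
      (f := fun s => e s * Real.exp (-∫ r in (0 : ℝ)..s, q r)) (C := ε * Real.exp (L * t)) ?_
    · rw [Real.norm_eq_abs, sub_zero, abs_of_nonneg ht] at this
      refine this.trans (le_of_eq (by ring))
    · intro s hs
      rw [uIoc_of_le ht] at hs
      rw [Real.norm_eq_abs, abs_mul, abs_of_pos (Real.exp_pos _)]
      refine mul_le_mul (hε s ⟨hs.1.le, hs.2⟩) ?_ (Real.exp_pos _).le hε0
      rw [Real.exp_le_exp]
      have h3 := abs_int_le hL 0 s hs.1.le
      rw [sub_zero] at h3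
      refine (neg_le_abs _).trans (h3.trans ?_)
      exact mul_le_mul_of_nonneg_left hs.2 hL0
  refine mul_le_mul h1 ?_ (abs_nonneg _) (Real.exp_pos _).le
  exact (abs_add_le _ _).trans (add_le_add le_rfl h2)

/-- constant forcing -/
theorem lin_const {q D : ℝ → ℝ} (hq : Continuous q) {σ : ℝ} (hσ : 0 ≤ σ)
    (hD : ∀ t, HasDerivAt D (q t * D t + σ) t) {L : ℝ} (hL : ∀ t, |q t| ≤ L) {t : ℝ}
    (ht : 0 ≤ t) (h0 : D 0 = 0) :
    t * Real.exp (-(2 * L * t)) * σ ≤ D t ∧ D t ≤ t * Real.exp (2 * L * t) * σ := by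
  have hL0 : 0 ≤ L := (abs_nonneg _).trans (hL 0)
  have hD2 : ∀ t, HasDerivAt D (q t * D t + (fun _ => σ) t) t := hD
  have h := lin hq (continuous_const (y := σ)) hD2 t
  rw [h0, zero_add] at h
  have hQc : Continuous fun s => ∫ r in (0 : ℝ)..s, q r :=
    continuous_primitive (fun a b => hq.intervalIntegrable _ _) 0
  have hk : Continuous fun s => σ * Real.exp (-∫ r in (0 : ℝ)..s, q r) := by fun_prop
  have hb : ∀ s ∈ Icc 0 t, |∫ r in (0 : ℝ)..s, q r| ≤ L * t := by
    intro s hs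
    have h3 := abs_int_le hL 0 s hs.1
    rw [sub_zero] at h3
    exact h3.trans (mul_le_mul_of_nonneg_left hs.2 hL0)
  have hbt := abs_le.1 (hb t ⟨ht, le_rfl⟩)
  constructor
  · have h1 : ∫ _s in (0 : ℝ)..t, σ * Real.exp (-(L * t)) ≤
        ∫ s in (0 : ℝ)..t, σ * Real.exp (-∫ r in (0 : ℝ)..s, q r) := by
      refine integral_mono_on ht (by simp) (hk.intervalIntegrable _ _) fun s hs => ?_
      refine mul_le_mul_of_nonneg_left ?_ hσ
      rw [Real.exp_le_exp, neg_le_neg_iff]
      exact (le_abs_self _).trans (hb s hs)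
    rw [intervalIntegral.integral_const, sub_zero, smul_eq_mul] at h1
    rw [h]
    have h2 : Real.exp (-(L * t)) ≤ Real.exp (∫ s in (0 : ℝ)..t, q s) := by
      rw [Real.exp_le_exp]
      exact hbt.1
    calc t * Real.exp (-(2 * L * t)) * σ = Real.exp (-(L * t)) * (t * (σ * Real.exp (-(L * t)))) := by
          rw [show -(2 * L * t) = -(L * t) + -(L * t) by ring, Real.exp_add]
          ring
      _ ≤ _ := mul_le_mul h2 h1 (by positivity) (Real.exp_pos _).le
  · have h1 : ∫ s in (0 : ℝ)..t, σ * Real.exp (-∫ r in (0 : ℝ)..s, q r) ≤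
        ∫ _s in (0 : ℝ)..t, σ * Real.exp (L * t) := by
      refine integral_mono_on ht (hk.intervalIntegrable _ _) (by simp) fun s hs => ?_
      refine mul_le_mul_of_nonneg_left ?_ hσ
      rw [Real.exp_le_exp]
      exact (neg_le_abs _).trans (hb s hs)
    rw [intervalIntegral.integral_const, sub_zero, smul_eq_mul] at h1
    rw [h]
    have h2 : Real.exp (∫ s in (0 : ℝ)..t, q s) ≤ Real.exp (L * t) := by
      rw [Real.exp_le_exp]
      exact hbt.2
    have h3 : 0 ≤ t * (σ * Real.exp (L * t)) := by positivity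
    have h4 : Real.exp (∫ s in (0 : ℝ)..t, q s) *
        ∫ s in (0 : ℝ)..t, σ * Real.exp (-∫ r in (0 : ℝ)..s, q r) ≤
        Real.exp (∫ s in (0 : ℝ)..t, q s) * (t * (σ * Real.exp (L * t))) :=
      mul_le_mul_of_nonneg_left h1 (Real.exp_pos _).le
    refine h4.trans ((mul_le_mul_of_nonneg_right h2 h3).trans (le_of_eq ?_))
    rw [show 2 * L * t = L * t + L * t by ring, Real.exp_add]
    ring

end Pool.Agent.V8H61.MF
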