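import Pool.Agent.V8H61.MF.Fam

/-! # Monotone families: neutral graphs exist only for a null set of parameters -/

set_option autoImplicit false

open Set Filter Topology MeasureTheory

namespace Pool.Agent.V8H61.MF

open Pool.Agent.TH525.PF

variable {X : Type*} [MeasurableSpace X] {m : Measure X} [IsProbabilityMeasure m]

theorem key_pos {T : X → X} (hT : MeasurePreserving T m m) {D q : X → ℝ} {L ε κ : ℝ} (hL : 1 ≤ L)
    (mD : Measurable D) (mq : Measurable q) (hD : ∀ᵐ x ∂m, 0 < D x)
    (hq : ∀ᵐ x ∂m, L⁻¹ ≤ q x ∧ q x ≤ L) (hε : 0 < ε)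
    (H : ∀ᵐ x ∂m, q x * D x + ε ≤ D (T x)) (hκ : -κ ≤ ∫ x, Real.log (q x) ∂m) :
    ∫ x, min (ε / D x) 1 ∂m ≤ (L + 1) * κ := by
  have i1 := int_u mD hD hε
  have i2 := int_logq hL mq hq
  have h1 := int_le_zero hT (g := fun x => Real.log (D x))
    (h := fun x => Real.log (q x) + min (ε / D x) 1 / (L + 1)) mD.log (i2.add (i1.div_const _)) (by
      filter_upwards [hD, hq, H] with x hx hqx hH
      have hp : 0 < L⁻¹ := inv_pos.2 (by linarith)
      have q0 : 0 < q x := hp.trans_le hqx.1
      have e0 : 0 < ε / D x := div_pos hε hx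
      set u := min (ε / D x) 1 with hu
      have u0 : 0 < u := lt_min e0 one_pos
      have u1 : u ≤ 1 := min_le_right _ _
      have e1 : Real.log (q x + ε / D x) ≤ Real.log (D (T x)) - Real.log (D x) := by
        have h2 : Real.log (q x * D x + ε) ≤ Real.log (D (T x)) :=
          Real.log_le_log (by positivity) hH
        have h3 : Real.log (q x * D x + ε) = Real.log (q x + ε / D x) + Real.log (D x) := by
          rw [← Real.log_mul (by positivity) hx.ne']
          congr 1
          field_simp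
        linarith
      have e2 : Real.log (q x + u) - Real.log (q x) = Real.log ((q x + u) / q x) := by
        rw [Real.log_div (by positivity) q0.ne']
      have e3 := Real.one_sub_inv_le_log_of_pos (show 0 < (q x + u) / q x by positivity)
      have e4 : 1 - ((q x + u) / q x)⁻¹ = u / (q x + u) := by field_simp; ring
      have e5 : u / (L + 1) ≤ u / (q x + u) := by
        apply div_le_div_of_nonneg_left u0.le (by positivity)
        linarith [hqx.2]
      have e6 : Real.log (q x + u) ≤ Real.log (q x + ε / D x) :=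
        Real.log_le_log (by positivity) (by have := min_le_left (ε / D x) 1; linarith)
      linarith)
  rw [integral_add i2 (i1.div_const _), integral_div] at h1
  have hL1 : 0 < L + 1 := by linarith
  have h2 : (∫ x, min (ε / D x) 1 ∂m) / (L + 1) ≤ κ := by linarith
  rw [div_le_iff₀ hL1] at h2
  linarith

theorem key_neg {T : X → X} (hT : MeasurePreserving T m m) {D q : X → ℝ} {L ε κ : ℝ} (hL : 1 ≤ L)
    (mD : Measurable D) (mq : Measurable q) (hD : ∀ᵐ x ∂m, 0 < D x)
    (hq : ∀ᵐ x ∂m, L⁻¹ ≤ q x ∧ q x ≤ L) (hε : 0 < ε)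
    (H : ∀ᵐ x ∂m, D (T x) ≤ q x * D x - ε) (hκ : ∫ x, Real.log (q x) ∂m ≤ κ) :
    ∫ x, min (ε / D x) 1 ∂m ≤ L * κ := by
  have i1 := int_u mD hD hε
  have i2 := int_logq hL mq hq
  have hL0 : 0 < L := by linarith
  have hDT : ∀ᵐ x ∂m, 0 < D (T x) := hT.quasiMeasurePreserving.ae hD
  have h1 := zero_le_int hT (g := fun x => Real.log (D x))
    (h := fun x => Real.log (q x) - min (ε / D x) 1 / L) mD.log (i2.sub (i1.div_const _)) (by
      filter_upwards [hD, hq, H, hDT] with x hx hqx hH hxT
      have hp : 0 < L⁻¹ := inv_pos.2 (by linarith)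
      have q0 : 0 < q x := hp.trans_le hqx.1
      have e0 : 0 < ε / D x := div_pos hε hx
      set u := min (ε / D x) 1 with hu
      have u0 : 0 < u := lt_min e0 one_pos
      have e8 : (q x * D x - ε) / D x = q x - ε / D x := by field_simp
      have e7 : 0 < q x - ε / D x := by
        have h2 : 0 < q x * D x - ε := hxT.trans_le hH
        rw [← e8]
        exact div_pos h2 hx
      have e1 : Real.log (D (T x)) - Real.log (D x) ≤ Real.log (q x - ε / D x) := by
        rw [← Real.log_div hxT.ne' hx.ne', ← e8]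
        exact Real.log_le_log (div_pos hxT hx) (div_le_div_of_nonneg_right hH hx.le)
      have e2 : Real.log (q x - ε / D x) - Real.log (q x) = Real.log ((q x - ε / D x) / q x) := by
        rw [Real.log_div e7.ne' q0.ne']
      have e3 := Real.log_le_sub_one_of_pos (show 0 < (q x - ε / D x) / q x by positivity)
      have e4 : (q x - ε / D x) / q x - 1 = - (ε / D x / q x) := by field_simp; ring
      have e5 : u / L ≤ ε / D x / q x := by
        calc u / L ≤ ε / D x / L := by
              apply div_le_div_of_nonneg_right (min_le_left _ _) hL0.le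
          _ ≤ ε / D x / q x := div_le_div_of_nonneg_left e0.le q0 hqx.2
      linarith)
  rw [integral_sub i2 (i1.div_const _), integral_div] at h1
  have h2 : (∫ x, min (ε / D x) 1 ∂m) / L ≤ κ := by linarith
  rw [div_le_iff₀ hL0] at h2
  linarith

namespace Fam

variable (A : Fam X)

/-- the estimate for pairs of graphs -/
theorem pair (erg : Ergodic A.T m) {s s' : ℝ} {φ φ' : X → ℝ} (hφ : (A.sys s).Gr m φ)
    (hσ : s' ≠ s) (hφ' : (A.sys s').Gr m φ') (h0 : (A.sys s).ex m φ = 0) {c ρ : ℝ} (hc : 0 ≤ c)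
    (hρ : ∀ x y y', |y - y'| < ρ → |Real.log (A.G s x y) - Real.log (A.G s x y')| ≤ c) :
    ∫ x, min (A.κ * |s' - s| / |φ' x - φ x|) 1 ∂m ≤
      (A.L + 1) * (c + m.real {x | ρ ≤ |φ' x - φ x|} * (2 * Real.log A.L)) := by
  have hsgn := A.sgn erg hφ hσ hφ'
  have hne : ∀ᵐ x ∂m, φ x ≠ φ' x := by
    rcases hsgn with h | h
    · filter_upwards [h] with x hx using hx.ne
    · filter_upwards [h] with x hx using hx.ne'
  set S := A.sys s with hS
  set q := S.quo φ φ' with hqdef
  have mq : Measurable q := S.quo_meas hφ.1 hφ'.1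
  have hq : ∀ᵐ x ∂m, S.L⁻¹ ≤ q x ∧ q x ≤ S.L := by
    filter_upwards [hne] with x hx
    obtain ⟨ξ, -, -, h3⟩ := S.quo_eq hx
    rw [hqdef, h3]
    exact ⟨S.lo _ _, S.hi _ _⟩
  have iq := int_logq S.L1 mq hq
  have iG := S.int_log (m := m) hφ.1
  have mA : MeasurableSet {x | ρ ≤ |φ' x - φ x|} :=
    measurableSet_le measurable_const ((hφ'.1.sub hφ.1).abs)
  set κ := c + m.real {x | ρ ≤ |φ' x - φ x|} * (2 * Real.log S.L) with hκ
  have hκ0 : 0 ≤ κ := by
    have := S.logL
    have h1 : 0 ≤ m.real {x | ρ ≤ |φ' x - φ x|} := measureReal_nonneg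
    rw [hκ]
    positivity
  have hint : |∫ x, Real.log (q x) ∂m| ≤ κ := by
    have e1 : ∫ x, Real.log (q x) ∂m = ∫ x, (Real.log (q x) - Real.log (S.G x (φ x))) ∂m := by
      rw [integral_sub iq iG]
      have : ∫ x, Real.log (S.G x (φ x)) ∂m = 0 := h0
      rw [this, sub_zero]
    rw [e1]
    refine (abs_integral_le_integral_abs).trans ?_
    have e2 : ∫ x, |Real.log (q x) - Real.log (S.G x (φ x))| ∂m ≤
        ∫ x, (c + {x | ρ ≤ |φ' x - φ x|}.indicator (fun _ => 2 * Real.log S.L) x) ∂m := by
      refine integral_mono_ae (iq.sub iG).abs ?_ ?_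
      · exact (integrable_const _).add ((integrable_const _).indicator mA)
      · filter_upwards [hne] with x hx
        exact S.quo_log hx hc hρ
    refine e2.trans (le_of_eq ?_)
    rw [integral_add (integrable_const _) ((integrable_const _).indicator mA), integral_const,
      integral_indicator_const _ mA]
    simp [hκ]
  have mD : Measurable fun x => |φ' x - φ x| := (hφ'.1.sub hφ.1).abs
  have hD : ∀ᵐ x ∂m, 0 < |φ' x - φ x| := by
    filter_upwards [hne] with x hx
    exact abs_pos.2 (sub_ne_zero.2 hx.symm)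
  have hσ0 : 0 < |s' - s| := abs_pos.2 (sub_ne_zero.2 hσ)
  have hε : 0 < A.κ * |s' - s| := mul_pos A.κpos hσ0
  -- the step
  have hstep : ∀ᵐ x ∂m, φ' (A.T x) - φ (A.T x) =
      q x * (φ' x - φ x) + (A.F s' x (φ' x) - A.F s x (φ' x)) := by
    filter_upwards [hφ.2, hφ'.2, hne] with x h1 h2 h3
    have h4 := S.quo_mul h3
    rw [hqdef, h4]
    have h5 : A.F s x (φ x) = φ (A.T x) := h1
    have h6 : A.F s' x (φ' x) = φ' (A.T x) := h2
    have h7 : S.F x (φ' x) = A.F s x (φ' x) := rfl
    have h8 : S.F x (φ x) = A.F s x (φ x) := rfl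
    rw [h7, h8, ← h5, ← h6]
    ring
  have hup : s < s' → ∀ x, A.κ * |s' - s| ≤ A.F s' x (φ' x) - A.F s x (φ' x) := by
    intro h x
    rw [abs_of_pos (sub_pos.2 h)]
    exact A.lower s s' x _ h.le
  have hdn : s' < s → ∀ x, A.F s' x (φ' x) - A.F s x (φ' x) ≤ - (A.κ * |s' - s|) := by
    intro h x
    rw [abs_of_neg (sub_neg.2 h)]
    have := A.lower s' s x (φ' x) h.le
    linarith
  have hL : S.L * κ ≤ (S.L + 1) * κ := by nlinarith
  have habs := abs_le.1 hint
  have hT := erg.toMeasurePreserving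
  rcases hsgn with hs | hs
  · have hsT : ∀ᵐ x ∂m, φ (A.T x) < φ' (A.T x) := hT.quasiMeasurePreserving.ae hs
    rcases lt_or_gt_of_ne hσ with h | h
    · refine (key_neg hT S.L1 mD mq hD hq hε ?_ habs.2).trans hL
      filter_upwards [hs, hsT, hstep] with x a b d
      have := hdn h x
      rw [abs_of_pos (sub_pos.2 a), abs_of_pos (sub_pos.2 b), d]
      linarith
    · refine key_pos hT S.L1 mD mq hD hq hε ?_ habs.1
      filter_upwards [hs, hsT, hstep] with x a b d
      have := hup h x
      rw [abs_of_pos (sub_pos.2 a), abs_of_pos (sub_pos.2 b), d]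
      linarith
  · have hsT : ∀ᵐ x ∂m, φ' (A.T x) < φ (A.T x) := hT.quasiMeasurePreserving.ae hs
    rcases lt_or_gt_of_ne hσ with h | h
    · refine key_pos hT S.L1 mD mq hD hq hε ?_ habs.1
      filter_upwards [hs, hsT, hstep] with x a b d
      have := hdn h x
      rw [abs_of_neg (sub_neg.2 a), abs_of_neg (sub_neg.2 b), d]
      linarith
    · refine (key_neg hT S.L1 mD mq hD hq hε ?_ habs.2).trans hL
      filter_upwards [hs, hsT, hstep] with x a b d
      have := hup h x
      rw [abs_of_neg (sub_neg.2 a), abs_of_neg (sub_neg.2 b), d]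
      linarith

end Fam

end Pool.Agent.V8H61.MF
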