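import Pool.Agent.V8H61.MF.SkOde

/-! # The time-`a` maps of a family of skew-product flows -/

set_option autoImplicit false
set_option linter.unusedSectionVars false
set_option linter.unusedVariables false

open Set Filter Topology MeasureTheory intervalIntegral

namespace Pool.Agent.V8H61.MF

open Pool.Agent.H728R2.OS Pool.Agent.H728R2.FA Pool.Agent.TH525.PF

theorem circ_dist (a b : ℝ) : dist (a : UnitAddCircle) (b : UnitAddCircle) ≤ |a - b| := by
  rw [dist_eq_norm, ← AddCircle.coe_sub]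
  exact QuotientAddGroup.norm_mk_le_norm

section unif

variable {B : Type*} [MetricSpace B] [CompactSpace B] {g g' : B × Circ → ℝ} {ψ : ℝ → B → B}

theorem gmod (hg' : Continuous g') {c : ℝ} (hc : 0 < c) : ∃ ρ : ℝ, 0 < ρ ∧
    ∀ (z : B) (a b : ℝ), |a - b| < ρ →
      |g' (z, (a : UnitAddCircle)) - g' (z, (b : UnitAddCircle))| ≤ c := by
  have h := CompactSpace.uniformContinuous_of_continuous hg'
  rw [Metric.uniformContinuous_iff] at h
  obtain ⟨ρ, hρ, h2⟩ := h c hc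
  refine ⟨ρ, hρ, fun z a b hab => ?_⟩
  have h3 := h2 (a := (z, (a : UnitAddCircle))) (b := (z, (b : UnitAddCircle))) (by
    rw [Prod.dist_eq, dist_self, max_eq_right dist_nonneg]
    exact (circ_dist a b).trans_lt hab)
  rw [Real.dist_eq] at h3
  exact h3.le

theorem qt_near {c ρ : ℝ} (h : ∀ (z : B) (a b : ℝ), |a - b| < ρ →
      |g' (z, (a : UnitAddCircle)) - g' (z, (b : UnitAddCircle))| ≤ c) (hg' : Continuous g')
    (z : B) {a b : ℝ} (hab : |b - a| < ρ) :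
    |qt g' z a b - g' (z, (a : UnitAddCircle))| ≤ c := by
  have e : qt g' z a b - g' (z, (a : UnitAddCircle)) =
      ∫ s in (0 : ℝ)..1, (g' (z, ((a + s * (b - a) : ℝ) : UnitAddCircle)) -
        g' (z, (a : UnitAddCircle))) := by
    rw [intervalIntegral.integral_sub]
    · simp [qt]
    · refine Continuous.intervalIntegrable ?_ _ _
      exact hg'.comp (continuous_const.prodMk (coe_cont.comp (by fun_prop)))
    · simp
  rw [e]
  have := norm_integral_le_of_norm_le_const (a := 0) (b := 1)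
    (f := fun s : ℝ => g' (z, ((a + s * (b - a) : ℝ) : UnitAddCircle)) -
        g' (z, (a : UnitAddCircle))) (C := c) (fun s hs => ?_)
  · simpa using this
  · rw [uIoc_of_le zero_le_one] at hs
    refine h z _ _ ?_
    rw [add_sub_cancel_left, abs_mul, abs_of_pos hs.1]
    calc s * |b - a| ≤ 1 * |b - a| := mul_le_mul_of_nonneg_right hs.2 (abs_nonneg _)
      _ < ρ := by rw [one_mul]; exact hab

theorem gbase (hψ : IsFlow ψ) (hg : Continuous g) (a : ℝ) (x₀ : B) {ε : ℝ} (hε : 0 < ε) :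
    ∃ δ : ℝ, 0 < δ ∧ ∀ x, dist x x₀ < δ → ∀ s ∈ Icc 0 a, ∀ c : Circ,
      |g (ψ s x, c) - g (ψ s x₀, c)| ≤ ε := by
  have hK : IsCompact ((Icc 0 a) ×ˢ ((univ : Set B) ×ˢ (univ : Set Circ))) :=
    isCompact_Icc.prod (isCompact_univ.prod isCompact_univ)
  have hc : Continuous fun q : ℝ × (B × Circ) => g (ψ q.1 q.2.1, q.2.2) :=
    hg.comp ((hψ.cont.comp (continuous_fst.prodMk (continuous_fst.comp continuous_snd))).prodMk
      (continuous_snd.comp continuous_snd))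
  have hu := hK.uniformContinuousOn_of_continuous hc.continuousOn
  rw [Metric.uniformContinuousOn_iff] at hu
  obtain ⟨δ, hδ, h⟩ := hu ε hε
  refine ⟨δ, hδ, fun x hx s hs c => ?_⟩
  have := h (s, (x, c)) ⟨hs, mem_univ _, mem_univ _⟩ (s, (x₀, c)) ⟨hs, mem_univ _, mem_univ _⟩ (by
    rw [Prod.dist_eq, Prod.dist_eq, dist_self, dist_self, max_eq_left dist_nonneg,
      max_eq_right dist_nonneg]
    exact hx)
  rw [Real.dist_eq] at this
  exact this.le

theorem gbound [Nonempty B] (hg' : Continuous g') : ∃ L : ℝ, 0 ≤ L ∧ ∀ p, |g' p| ≤ L := by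
  obtain ⟨C, hC⟩ := isCompact_univ.exists_bound_of_continuousOn hg'.continuousOn
  refine ⟨C, ?_, fun p => hC p (mem_univ _)⟩
  obtain ⟨x⟩ := ‹Nonempty B›
  exact (norm_nonneg _).trans (hC (x, 0) (mem_univ _))

end unif

/-- the data of a family -/
structure Dat (B : Type*) [MetricSpace B] [CompactSpace B] where
  ψ : ℝ → B → B
  g : B × Circ → ℝ
  g' : B × Circ → ℝ
  Φ : ℝ → ℝ → B × Circ → B × Circ
  hψ : IsFlow ψ
  hg : Continuous g
  hg' : Continuous g'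
  hd : ∀ (x : B) (y : ℝ), HasDerivAt (fun y : ℝ => g (x, (y : UnitAddCircle)))
      (g' (x, (y : UnitAddCircle))) y
  hΦ : ∀ θ, SkewFlow ψ g θ (Φ θ)
  L : ℝ
  hL0 : 0 ≤ L
  hL : ∀ p, |g' p| ≤ L
  a : ℝ
  ha : 0 < a

namespace Dat

variable {B : Type*} [MetricSpace B] [CompactSpace B] (D : Dat B)

/-- the solution -/
noncomputable def Y (θ : ℝ) (x : B) (y : ℝ) : ℝ → ℝ := ((D.hΦ θ).lift x y).choose

theorem Y_zero (θ : ℝ) (x : B) (y : ℝ) : D.Y θ x y 0 = y := ((D.hΦ θ).lift x y).choose_spec.1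

theorem Y_der (θ : ℝ) (x : B) (y t : ℝ) :
    HasDerivAt (D.Y θ x y) (D.g (D.ψ t x, (D.Y θ x y t : UnitAddCircle)) + θ) t :=
  ((D.hΦ θ).lift x y).choose_spec.2.1 t

theorem Y_eq (θ : ℝ) (x : B) (y t : ℝ) :
    D.Φ θ t (x, (y : UnitAddCircle)) = (D.ψ t x, (D.Y θ x y t : UnitAddCircle)) :=
  ((D.hΦ θ).lift x y).choose_spec.2.2 t

theorem Y_cont (θ : ℝ) (x : B) (y : ℝ) : Continuous (D.Y θ x y) := sol_cont (D.Y_der θ x y)

theorem Y_dist {x₁ x₂ : B} {θ₁ θ₂ y₁ y₂ t ε : ℝ} (ht : 0 ≤ t)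
    (hε : ∀ s ∈ Icc 0 t, ∀ c : Circ,
      |D.g (D.ψ s x₂, c) - D.g (D.ψ s x₁, c) + (θ₂ - θ₁)| ≤ ε) :
    |D.Y θ₂ x₂ y₂ t - D.Y θ₁ x₁ y₁ t| ≤
      Real.exp (D.L * t) * (|y₂ - y₁| + ε * t * Real.exp (D.L * t)) := by
  have := sol_dist D.hψ D.hg D.hg' D.hd D.hL (D.Y_der θ₁ x₁ y₁) (D.Y_der θ₂ x₂ y₂) ht hε
  rwa [D.Y_zero, D.Y_zero] at this

theorem Y_lip (θ : ℝ) (x : B) (y₁ y₂ : ℝ) {t : ℝ} (ht : 0 ≤ t) :
    |D.Y θ x y₂ t - D.Y θ x y₁ t| ≤ Real.exp (D.L * t) * |y₂ - y₁| := by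
  have := D.Y_dist (x₁ := x) (x₂ := x) (θ₁ := θ) (θ₂ := θ) (y₁ := y₁) (y₂ := y₂) (ε := 0) ht
    (fun s _ c => by simp)
  simpa using this

theorem Y_lip' (θ : ℝ) (x : B) (y₁ y₂ : ℝ) {t : ℝ} (ht : t ∈ Icc 0 D.a) :
    |D.Y θ x y₂ t - D.Y θ x y₁ t| ≤ Real.exp (D.L * D.a) * |y₂ - y₁| := by
  refine (D.Y_lip θ x y₁ y₂ ht.1).trans (mul_le_mul_of_nonneg_right ?_ (abs_nonneg _))
  rw [Real.exp_le_exp]
  exact mul_le_mul_of_nonneg_left ht.2 D.hL0

theorem Y_par {x : B} {θ₁ θ₂ y t : ℝ} (hθ : θ₁ ≤ θ₂) (ht : 0 ≤ t) :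
    t * Real.exp (-(2 * D.L * t)) * (θ₂ - θ₁) ≤ D.Y θ₂ x y t - D.Y θ₁ x y t ∧
      D.Y θ₂ x y t - D.Y θ₁ x y t ≤ t * Real.exp (2 * D.L * t) * (θ₂ - θ₁) :=
  sol_par D.hψ D.hg D.hg' D.hd D.hL hθ (D.Y_der θ₁ x y) (D.Y_der θ₂ x y)
    (by rw [D.Y_zero, D.Y_zero]) ht

theorem Y_per (θ : ℝ) (x : B) (y : ℝ) {t : ℝ} (ht : 0 ≤ t) :
    D.Y θ x (y + 1) t = D.Y θ x y t + 1 := by
  have h1 : ∀ t, HasDerivAt (fun t => D.Y θ x y t + 1)
      (D.g (D.ψ t x, ((D.Y θ x y t + 1 : ℝ) : UnitAddCircle)) + θ) t := by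
    intro t
    have e : ((D.Y θ x y t + 1 : ℝ) : UnitAddCircle) = (D.Y θ x y t : UnitAddCircle) := by
      rw [AddCircle.coe_add]
      simp
    rw [e]
    exact (D.Y_der θ x y t).add_const 1
  have h2 := sol_dist D.hψ D.hg D.hg' D.hd D.hL h1 (D.Y_der θ x (y + 1)) (t := t) (ε := 0) ht
    (fun s _ c => by simp)
  simp only [D.Y_zero, sub_self, abs_zero, zero_mul, add_zero, mul_zero] at h2
  have := abs_nonpos_iff.1 h2
  linarith

/-- the fibre maps of the time-`a` map -/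
noncomputable def F (θ : ℝ) (x : B) (y : ℝ) : ℝ := D.Y θ x y D.a

/-- their derivatives -/
noncomputable def G (θ : ℝ) (x : B) (y : ℝ) : ℝ :=
  Real.exp (∫ s in (0 : ℝ)..D.a, D.g' (D.ψ s x, (D.Y θ x y s : UnitAddCircle)))

theorem i_cont (θ : ℝ) (x : B) (y : ℝ) :
    Continuous fun s => D.g' (D.ψ s x, (D.Y θ x y s : UnitAddCircle)) :=
  D.hg'.comp ((base_cont D.hψ x).prodMk (coe_cont.comp (D.Y_cont θ x y)))

theorem F_der (θ : ℝ) (x : B) (y : ℝ) : HasDerivAt (D.F θ x) (D.G θ x y) y := by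
  rw [hasDerivAt_iff_tendsto_slope]
  have h1 : ∀ z, z ≠ y → slope (D.F θ x) y z =
      Real.exp (∫ s in (0 : ℝ)..D.a, qt D.g' (D.ψ s x) (D.Y θ x y s) (D.Y θ x z s)) := by
    intro z hz
    have h2 := sol_quot D.hψ D.hg D.hg' D.hd (D.Y_der θ x y) (D.Y_der θ x z) D.a
    rw [D.Y_zero, D.Y_zero] at h2
    rw [slope_def_field, F, F, h2, mul_div_assoc, div_self (sub_ne_zero.2 hz), mul_one]
  have h3 : Tendsto (fun z => ∫ s in (0 : ℝ)..D.a, qt D.g' (D.ψ s x) (D.Y θ x y s) (D.Y θ x z s))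
      (𝓝 y) (𝓝 (∫ s in (0 : ℝ)..D.a, D.g' (D.ψ s x, (D.Y θ x y s : UnitAddCircle)))) := by
    rw [Metric.tendsto_nhds_nhds]
    intro ε hε
    have ha := D.ha
    set c := ε / (2 * D.a) with hc
    have hcp : 0 < c := by positivity
    obtain ⟨ρ, hρ, h4⟩ := gmod D.hg' hcp
    refine ⟨ρ / Real.exp (D.L * D.a), by positivity, fun z hz => ?_⟩
    rw [Real.dist_eq] at hz ⊢
    have hq : Continuous fun s => qt D.g' (D.ψ s x) (D.Y θ x y s) (D.Y θ x z s) :=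
      qt_cont D.hg' (base_cont D.hψ x) (D.Y_cont θ x y) (D.Y_cont θ x z)
    rw [← intervalIntegral.integral_sub (hq.intervalIntegrable _ _)
      ((D.i_cont θ x y).intervalIntegrable _ _)]
    have h5 := norm_integral_le_of_norm_le_const (a := 0) (b := D.a)
      (f := fun s => qt D.g' (D.ψ s x) (D.Y θ x y s) (D.Y θ x z s) -
        D.g' (D.ψ s x, (D.Y θ x y s : UnitAddCircle))) (C := c) (fun s hs => by
        rw [uIoc_of_le ha.le] at hs
        refine qt_near h4 D.hg' _ ?_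
        refine (D.Y_lip' θ x y z ⟨hs.1.le, hs.2⟩).trans_lt ?_
        rw [lt_div_iff₀ (Real.exp_pos _)] at hz
        linarith)
    rw [Real.norm_eq_abs, sub_zero, abs_of_pos ha] at h5
    refine h5.trans_lt ?_
    rw [hc]
    field_simp
    linarith
  have h6 := (Real.continuous_exp.tendsto _).comp h3
  refine (h6.mono_left nhdsWithin_le_nhds).congr' ?_
  filter_upwards [self_mem_nhdsWithin] with z hz
  exact (h1 z hz).symm

theorem log_G (θ : ℝ) (x : B) (y : ℝ) : Real.log (D.G θ x y) =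
    ∫ s in (0 : ℝ)..D.a, D.g' (D.ψ s x, (D.Y θ x y s : UnitAddCircle)) := by
  rw [G, Real.log_exp]

theorem G_bd (θ : ℝ) (x : B) (y : ℝ) : |Real.log (D.G θ x y)| ≤ D.L * D.a := by
  rw [log_G]
  have := abs_int_le (q := fun s => D.g' (D.ψ s x, (D.Y θ x y s : UnitAddCircle))) (L := D.L)
    (fun t => D.hL _) 0 D.a D.ha.le
  rwa [sub_zero] at this

theorem G_mod (θ : ℝ) {c : ℝ} (hc : 0 < c) : ∃ ρ : ℝ, 0 < ρ ∧ ∀ x y y', |y - y'| < ρ →
    |Real.log (D.G θ x y) - Real.log (D.G θ x y')| ≤ c := by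
  have ha := D.ha
  obtain ⟨ρ, hρ, h4⟩ := gmod D.hg' (show 0 < c / D.a by positivity)
  refine ⟨ρ / Real.exp (D.L * D.a), by positivity, fun x y y' hy => ?_⟩
  rw [log_G, log_G, ← intervalIntegral.integral_sub ((D.i_cont θ x y).intervalIntegrable _ _)
      ((D.i_cont θ x y').intervalIntegrable _ _)]
  have h5 := norm_integral_le_of_norm_le_const (a := 0) (b := D.a)
    (f := fun s => D.g' (D.ψ s x, (D.Y θ x y s : UnitAddCircle)) -
      D.g' (D.ψ s x, (D.Y θ x y' s : UnitAddCircle))) (C := c / D.a) (fun s hs => by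
      rw [uIoc_of_le ha.le] at hs
      refine h4 _ _ _ ?_
      refine (D.Y_lip' θ x y' y ⟨hs.1.le, hs.2⟩).trans_lt ?_
      rw [lt_div_iff₀ (Real.exp_pos _)] at hy
      linarith)
  rw [Real.norm_eq_abs, sub_zero, abs_of_pos ha] at h5
  refine h5.trans (le_of_eq ?_)
  field_simp

theorem F_cont (θ : ℝ) : Continuous (Function.uncurry (D.F θ)) := by
  rw [Metric.continuous_iff]
  rintro ⟨x₀, y₀⟩ ε hε
  have ha := D.ha
  set E := Real.exp (D.L * D.a) with hE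
  have hEp : 0 < E := Real.exp_pos _
  set η := ε / (4 * E * (D.a * E)) with hη
  have hηp : 0 < η := by positivity
  obtain ⟨δ, hδ, h⟩ := gbase D.hψ D.hg D.a x₀ hηp
  refine ⟨min δ (ε / (4 * E)), lt_min hδ (by positivity), ?_⟩
  rintro ⟨x, y⟩ hxy
  rw [Prod.dist_eq, max_lt_iff] at hxy
  have h1 := h x (hxy.1.trans_le (min_le_left _ _))
  have h2 : |y - y₀| < ε / (4 * E) := by
    rw [← Real.dist_eq]
    exact hxy.2.trans_le (min_le_right _ _)
  have h3 := D.Y_dist (x₁ := x₀) (x₂ := x) (θ₁ := θ) (θ₂ := θ) (y₁ := y₀) (y₂ := y) (ε := η)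
    ha.le (fun s hs c => by rw [sub_self, add_zero]; exact h1 s hs c)
  rw [Real.dist_eq]
  refine h3.trans_lt ?_
  rw [← hE]
  have h4 : E * |y - y₀| ≤ ε / 4 := by
    have := mul_le_mul_of_nonneg_left h2.le hEp.le
    refine this.trans (le_of_eq ?_)
    field_simp
  have h5 : E * (η * D.a * E) = ε / 4 := by
    rw [hη]
    field_simp
  rw [mul_add, h5]
  linarith

/-- distance of the time-`a` maps -/
theorem Φ_dist (θ₁ θ₂ : ℝ) (p : B × Circ) :
    dist (D.Φ θ₂ D.a p) (D.Φ θ₁ D.a p) ≤ D.a * Real.exp (2 * D.L * D.a) * |θ₂ - θ₁| := by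
  obtain ⟨x, c⟩ := p
  obtain ⟨y, rfl⟩ : ∃ t : ℝ, (t : UnitAddCircle) = c := QuotientAddGroup.mk_surjective c
  rw [D.Y_eq, D.Y_eq, Prod.dist_eq, dist_self, max_eq_right dist_nonneg]
  refine (circ_dist _ _).trans ?_
  have ha := D.ha
  have hκ : 0 ≤ D.a * Real.exp (-(2 * D.L * D.a)) := by positivity
  rcases le_total θ₁ θ₂ with h | h
  · have h1 := D.Y_par (x := x) (y := y) h ha.le
    rw [abs_of_nonneg (sub_nonneg.2 h), abs_of_nonneg]
    · exact h1.2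
    · exact le_trans (mul_nonneg hκ (sub_nonneg.2 h)) h1.1
  · have h1 := D.Y_par (x := x) (y := y) h ha.le
    rw [abs_sub_comm, abs_sub_comm θ₂, abs_of_nonneg (sub_nonneg.2 h), abs_of_nonneg]
    · exact h1.2
    · exact le_trans (mul_nonneg hκ (sub_nonneg.2 h)) h1.1

theorem Φ_cont : Continuous fun q : ℝ × (B × Circ) => D.Φ q.1 D.a q.2 := by
  rw [continuous_iff_continuousAt]
  intro q₀
  show Tendsto (fun q : ℝ × (B × Circ) => D.Φ q.1 D.a q.2) (𝓝 q₀) (𝓝 (D.Φ q₀.1 D.a q₀.2))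
  rw [tendsto_iff_dist_tendsto_zero]
  have h1 : Tendsto (fun q : ℝ × (B × Circ) => D.a * Real.exp (2 * D.L * D.a) * |q.1 - q₀.1| +
      dist (D.Φ q₀.1 D.a q.2) (D.Φ q₀.1 D.a q₀.2)) (𝓝 q₀) (𝓝 0) := by
    have hc : Continuous fun q : ℝ × (B × Circ) => D.a * Real.exp (2 * D.L * D.a) * |q.1 - q₀.1| +
      dist (D.Φ q₀.1 D.a q.2) (D.Φ q₀.1 D.a q₀.2) := by
      have h2 : Continuous fun q : ℝ × (B × Circ) => D.Φ q₀.1 D.a q.2 :=
        ((D.hΦ q₀.1).flow.cont1 D.a).comp continuous_snd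
      fun_prop
    have h := hc.tendsto q₀
    simpa using h
  refine squeeze_zero (fun _ => dist_nonneg) (fun q => ?_) h1
  exact (dist_triangle _ (D.Φ q₀.1 D.a q.2) _).trans (add_le_add (D.Φ_dist _ _ _) le_rfl)

variable [MeasurableSpace B] [BorelSpace B]

theorem G_meas (θ : ℝ) : Measurable (Function.uncurry (D.G θ)) := by
  have h1 : Function.uncurry (D.G θ) = fun p : B × ℝ => deriv (D.F θ p.1) p.2 := by
    funext p
    exact (D.F_der θ p.1 p.2).deriv.symm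
  rw [h1]
  exact measurable_deriv_with_param (D.F_cont θ)

/-- the monotone family of the time-`a` maps -/
noncomputable def fam : Fam B where
  T := (D.hψ.homeo D.a).toMeasurableEquiv
  F := D.F
  G := D.G
  L := Real.exp (D.L * D.a)
  mF := fun θ => (D.F_cont θ).measurable
  mG := D.G_meas
  der := D.F_der
  L1 := Real.one_le_exp (mul_nonneg D.hL0 D.ha.le)
  lo := fun θ x y => by
    have hp : 0 < D.G θ x y := Real.exp_pos _
    rw [← Real.exp_neg, ← Real.le_log_iff_exp_le hp]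
    exact (abs_le.1 (D.G_bd θ x y)).1
  hi := fun θ x y => by
    have hp : 0 < D.G θ x y := Real.exp_pos _
    rw [← Real.log_le_iff_le_exp hp]
    exact (abs_le.1 (D.G_bd θ x y)).2
  mod := fun θ c hc => D.G_mod θ hc
  κ := D.a * Real.exp (-(2 * D.L * D.a))
  κpos := mul_pos D.ha (Real.exp_pos _)
  lower := fun θ₁ θ₂ x y h => (D.Y_par (x := x) (y := y) h D.ha.le).1
  K := D.a * Real.exp (2 * D.L * D.a)
  upper := fun θ₁ θ₂ x y h => (D.Y_par (x := x) (y := y) h D.ha.le).2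

/-- **Dense set of parameters.** -/
theorem dense {m : Measure B} [IsProbabilityMeasure m] (erg : Ergodic (D.ψ D.a) m)
    (μ : Measure (B × Circ)) (hμ : μ ≪ m.prod volume) (hμ' : m.prod volume ≪ μ) :
    Dense {θ : ℝ | FiniteAttractorsFlow μ (D.Φ θ)} := by
  have h := dense_finite D.fam (D.hψ.homeo D.a) (fun x => rfl) erg
    (fun θ => (D.hΦ θ).flow.homeo D.a) D.Φ_cont (fun θ x y => D.Y_eq θ x y D.a)
    (fun θ x y => D.Y_per θ x y D.ha.le) μ hμ hμ'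
  refine h.mono ?_
  rintro θ ⟨h1, -⟩
  exact (D.hΦ θ).flow.finite D.ha h1

end Dat

end Pool.Agent.V8H61.MF
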