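import Pool.Agent.V8H61.MF.FlowDef
import Pool.Agent.V8H61.MF.Ode
import Pool.Agent.V8H61.MF.Main

/-! # The fibre equation of a skew-product flow -/

set_option autoImplicit false
set_option linter.unusedSectionVars false

open Set Filter Topology MeasureTheory intervalIntegral

namespace Pool.Agent.V8H61.MF

open Pool.Agent.H728R2.OS Pool.Agent.H728R2.FA

theorem coe_cont : Continuous fun y : ℝ => (y : UnitAddCircle) := AddCircle.continuous_mk' 1

section quot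

variable {B : Type*} [TopologicalSpace B] {g g' : B × Circ → ℝ}

/-- the averaged derivative -/
noncomputable def qt (g' : B × Circ → ℝ) (z : B) (a b : ℝ) : ℝ :=
  ∫ s in (0 : ℝ)..1, g' (z, ((a + s * (b - a) : ℝ) : UnitAddCircle))

theorem qt_eq (hg' : Continuous g')
    (hd : ∀ (x : B) (y : ℝ), HasDerivAt (fun y : ℝ => g (x, (y : UnitAddCircle)))
      (g' (x, (y : UnitAddCircle))) y) (z : B) (a b : ℝ) :
    g (z, (b : UnitAddCircle)) - g (z, (a : UnitAddCircle)) = qt g' z a b * (b - a) := by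
  have h1 : ∀ s : ℝ, HasDerivAt (fun s : ℝ => g (z, ((a + s * (b - a) : ℝ) : UnitAddCircle)))
      (g' (z, ((a + s * (b - a) : ℝ) : UnitAddCircle)) * (b - a)) s := by
    intro s
    have h2 : HasDerivAt (fun s : ℝ => a + s * (b - a)) (b - a) s := by
      have := ((hasDerivAt_id s).mul_const (b - a)).const_add a
      simpa using this
    exact (hd z (a + s * (b - a))).comp s h2
  have hc : Continuous fun s : ℝ => g' (z, ((a + s * (b - a) : ℝ) : UnitAddCircle)) :=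
    hg'.comp (continuous_const.prodMk (coe_cont.comp (by fun_prop)))
  have h3 := integral_eq_sub_of_hasDerivAt (a := 0) (b := 1) (fun s _ => h1 s)
    ((hc.mul continuous_const).intervalIntegrable _ _)
  rw [intervalIntegral.integral_mul_const] at h3
  rw [qt, h3]
  simp

theorem qt_cont (hg' : Continuous g') {z : ℝ → B} {a b : ℝ → ℝ} (hz : Continuous z)
    (ha : Continuous a) (hb : Continuous b) : Continuous fun t => qt g' (z t) (a t) (b t) := by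
  refine intervalIntegral.continuous_parametric_intervalIntegral_of_continuous'
    (f := fun t s => g' (z t, ((a t + s * (b t - a t) : ℝ) : UnitAddCircle))) ?_ 0 1
  exact hg'.comp ((hz.comp continuous_fst).prodMk (coe_cont.comp (by fun_prop)))

theorem qt_bd {L : ℝ} (hL : ∀ p, |g' p| ≤ L) (z : B) (a b : ℝ) : |qt g' z a b| ≤ L := by
  have := norm_integral_le_of_norm_le_const (a := 0) (b := 1)
    (f := fun s : ℝ => g' (z, ((a + s * (b - a) : ℝ) : UnitAddCircle))) (C := L)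
    (fun s _ => hL _)
  simpa [qt] using this

theorem qt_self (z : B) (a : ℝ) : qt g' z a a = g' (z, (a : UnitAddCircle)) := by
  simp [qt]

end quot

section ode

variable {B : Type*} [MetricSpace B] [CompactSpace B] {g g' : B × Circ → ℝ} {ψ : ℝ → B → B}

/-- comparison of two solutions -/
theorem compare (hψ : IsFlow ψ) (hg : Continuous g) (hg' : Continuous g')
    (hd : ∀ (x : B) (y : ℝ), HasDerivAt (fun y : ℝ => g (x, (y : UnitAddCircle)))
      (g' (x, (y : UnitAddCircle))) y) {x₁ x₂ : B} {θ₁ θ₂ : ℝ} {Y₁ Y₂ : ℝ → ℝ}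
    (h₁ : ∀ t, HasDerivAt Y₁ (g (ψ t x₁, (Y₁ t : UnitAddCircle)) + θ₁) t)
    (h₂ : ∀ t, HasDerivAt Y₂ (g (ψ t x₂, (Y₂ t : UnitAddCircle)) + θ₂) t) (t : ℝ) :
    HasDerivAt (fun t => Y₂ t - Y₁ t) (qt g' (ψ t x₂) (Y₁ t) (Y₂ t) * (Y₂ t - Y₁ t) +
      (g (ψ t x₂, (Y₁ t : UnitAddCircle)) - g (ψ t x₁, (Y₁ t : UnitAddCircle)) + (θ₂ - θ₁))) t := by
  refine ((h₂ t).sub (h₁ t)).congr_deriv ?_
  rw [← qt_eq hg' hd]
  ring

theorem sol_cont {f : ℝ → ℝ} {Y : ℝ → ℝ} (h : ∀ t, HasDerivAt Y (f t) t) : Continuous Y :=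
  continuous_iff_continuousAt.2 fun t => (h t).continuousAt

theorem base_cont (hψ : IsFlow ψ) (x : B) : Continuous fun t => ψ t x :=
  hψ.cont.comp (continuous_id.prodMk continuous_const)

/-- distance of two solutions -/
theorem sol_dist (hψ : IsFlow ψ) (hg : Continuous g) (hg' : Continuous g')
    (hd : ∀ (x : B) (y : ℝ), HasDerivAt (fun y : ℝ => g (x, (y : UnitAddCircle)))
      (g' (x, (y : UnitAddCircle))) y) {L : ℝ} (hL : ∀ p, |g' p| ≤ L)
    {x₁ x₂ : B} {θ₁ θ₂ : ℝ} {Y₁ Y₂ : ℝ → ℝ}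
    (h₁ : ∀ t, HasDerivAt Y₁ (g (ψ t x₁, (Y₁ t : UnitAddCircle)) + θ₁) t)
    (h₂ : ∀ t, HasDerivAt Y₂ (g (ψ t x₂, (Y₂ t : UnitAddCircle)) + θ₂) t) {t ε : ℝ} (ht : 0 ≤ t)
    (hε : ∀ s ∈ Icc 0 t, ∀ c : Circ, |g (ψ s x₂, c) - g (ψ s x₁, c) + (θ₂ - θ₁)| ≤ ε) :
    |Y₂ t - Y₁ t| ≤ Real.exp (L * t) * (|Y₂ 0 - Y₁ 0| + ε * t * Real.exp (L * t)) := by
  have c₁ := sol_cont h₁
  have c₂ := sol_cont h₂
  refine lin_bound (q := fun t => qt g' (ψ t x₂) (Y₁ t) (Y₂ t))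
    (e := fun t => g (ψ t x₂, (Y₁ t : UnitAddCircle)) - g (ψ t x₁, (Y₁ t : UnitAddCircle)) +
      (θ₂ - θ₁)) (D := fun t => Y₂ t - Y₁ t) (qt_cont hg' (base_cont hψ x₂) c₁ c₂) ?_
    (compare hψ hg hg' hd h₁ h₂) (fun t => qt_bd hL _ _ _) ht (fun s hs => hε s hs _)
  have e1 : Continuous fun t => g (ψ t x₂, (Y₁ t : UnitAddCircle)) :=
    hg.comp ((base_cont hψ x₂).prodMk (coe_cont.comp c₁))
  have e2 : Continuous fun t => g (ψ t x₁, (Y₁ t : UnitAddCircle)) :=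
    hg.comp ((base_cont hψ x₁).prodMk (coe_cont.comp c₁))
  exact (e1.sub e2).add continuous_const

/-- solutions over the same base point, same parameter: the exact formula -/
theorem sol_quot (hψ : IsFlow ψ) (hg : Continuous g) (hg' : Continuous g')
    (hd : ∀ (x : B) (y : ℝ), HasDerivAt (fun y : ℝ => g (x, (y : UnitAddCircle)))
      (g' (x, (y : UnitAddCircle))) y) {x : B} {θ : ℝ} {Y₁ Y₂ : ℝ → ℝ}
    (h₁ : ∀ t, HasDerivAt Y₁ (g (ψ t x, (Y₁ t : UnitAddCircle)) + θ) t)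
    (h₂ : ∀ t, HasDerivAt Y₂ (g (ψ t x, (Y₂ t : UnitAddCircle)) + θ) t) (t : ℝ) :
    Y₂ t - Y₁ t = Real.exp (∫ s in (0 : ℝ)..t, qt g' (ψ s x) (Y₁ s) (Y₂ s)) * (Y₂ 0 - Y₁ 0) := by
  have c₁ := sol_cont h₁
  have c₂ := sol_cont h₂
  have h := lin (q := fun t => qt g' (ψ t x) (Y₁ t) (Y₂ t)) (e := fun _ => (0 : ℝ))
    (D := fun t => Y₂ t - Y₁ t) (qt_cont hg' (base_cont hψ x) c₁ c₂) continuous_const
    (fun t => by
      have := compare hψ hg hg' hd h₁ h₂ t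
      simpa using this) t
  simpa using h

/-- solutions over the same base point with the same initial value -/
theorem sol_par (hψ : IsFlow ψ) (hg : Continuous g) (hg' : Continuous g')
    (hd : ∀ (x : B) (y : ℝ), HasDerivAt (fun y : ℝ => g (x, (y : UnitAddCircle)))
      (g' (x, (y : UnitAddCircle))) y) {L : ℝ} (hL : ∀ p, |g' p| ≤ L) {x : B} {θ₁ θ₂ : ℝ}
    (hθ : θ₁ ≤ θ₂) {Y₁ Y₂ : ℝ → ℝ}
    (h₁ : ∀ t, HasDerivAt Y₁ (g (ψ t x, (Y₁ t : UnitAddCircle)) + θ₁) t)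
    (h₂ : ∀ t, HasDerivAt Y₂ (g (ψ t x, (Y₂ t : UnitAddCircle)) + θ₂) t) (h0 : Y₁ 0 = Y₂ 0)
    {t : ℝ} (ht : 0 ≤ t) :
    t * Real.exp (-(2 * L * t)) * (θ₂ - θ₁) ≤ Y₂ t - Y₁ t ∧
      Y₂ t - Y₁ t ≤ t * Real.exp (2 * L * t) * (θ₂ - θ₁) := by
  have c₁ := sol_cont h₁
  have c₂ := sol_cont h₂
  exact lin_const (q := fun t => qt g' (ψ t x) (Y₁ t) (Y₂ t)) (D := fun t => Y₂ t - Y₁ t)
    (qt_cont hg' (base_cont hψ x) c₁ c₂) (sub_nonneg.2 hθ) (fun t => by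
      have := compare hψ hg hg' hd h₁ h₂ t
      simpa using this) (fun t => qt_bd hL _ _ _) ht (by simp [h0])

end ode

end Pool.Agent.V8H61.MF
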