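import Pool.Agent.V8H61.MF.Fam
import Pool.Agent.TH525.PF.Wav

/-! # Bounded differences of the iterates and the wave operators between two parameters -/

set_option autoImplicit false

open Set Filter Topology MeasureTheory

namespace Pool.Agent.V8H61.MF

open Pool.Agent.TH525.PF

namespace Fam

variable {X : Type*} [MeasurableSpace X] (A : Fam X) {m : Measure X}

/-- the order is preserved, with integer gaps -/
theorem gap (per : ∀ s x y, A.F s x (y + 1) = A.F s x y + 1) {a b : ℝ} (hab : a ≤ b) (k : ℤ)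
    (n : ℕ) (x : X) {w z : ℝ} (h : w + k ≤ z) :
    (A.sys a).it n x w + k ≤ (A.sys b).it n x z := by
  induction n with
  | zero => exact h
  | succ n ih =>
    rw [Sys.it_succ, Sys.it_succ, sys_T, sys_T]
    have h1 := ((A.sys a).strict (A.T^[n] x)).monotone ih
    rw [(A.sys a).F_int (per a)] at h1
    exact h1.trans (A.F_le hab _ _)

theorem gap0 (per : ∀ s x y, A.F s x (y + 1) = A.F s x y + 1) {a b : ℝ} (hab : a ≤ b)
    (n : ℕ) (x : X) (w : ℝ) : (A.sys a).it n x w ≤ (A.sys b).it n x w := by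
  have := A.gap per hab 0 n x (w := w) (z := w) (by simp)
  simpa using this

/-- the difference of the iterates of `0` -/
noncomputable def dif (a b : ℝ) (n : ℕ) (x : X) : ℝ := (A.sys b).it n x 0 - (A.sys a).it n x 0

theorem dif_meas (a b : ℝ) (n : ℕ) : Measurable (A.dif a b n) :=
  ((A.sys b).it_meas n measurable_const).sub ((A.sys a).it_meas n measurable_const)

theorem dif_lower (per : ∀ s x y, A.F s x (y + 1) = A.F s x y + 1) (a b : ℝ) (n : ℕ) (x : X) (w : ℝ) :
    A.dif a b n x - 1 ≤ (A.sys b).it n x w - (A.sys a).it n x w := by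
  have h1 : (A.sys b).it n x (0 + ⌊w⌋) ≤ (A.sys b).it n x w :=
    (A.sys b).it_mono n x (by rw [zero_add]; exact Int.floor_le w)
  have h2 : (A.sys a).it n x w ≤ (A.sys a).it n x (0 + ((⌊w⌋ + 1 : ℤ) : ℝ)) :=
    (A.sys a).it_mono n x (by rw [zero_add]; push_cast; exact (Int.lt_floor_add_one w).le)
  rw [(A.sys b).it_int (per b)] at h1
  rw [(A.sys a).it_int (per a)] at h2
  push_cast at h2
  rw [dif]
  linarith

theorem dif_upper (per : ∀ s x y, A.F s x (y + 1) = A.F s x y + 1) (a b : ℝ) (n : ℕ) (x : X) (w : ℝ) :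
    (A.sys b).it n x w - (A.sys a).it n x w ≤ A.dif a b n x + 1 := by
  have h1 : (A.sys a).it n x (0 + ⌊w⌋) ≤ (A.sys a).it n x w :=
    (A.sys a).it_mono n x (by rw [zero_add]; exact Int.floor_le w)
  have h2 : (A.sys b).it n x w ≤ (A.sys b).it n x (0 + ((⌊w⌋ + 1 : ℤ) : ℝ)) :=
    (A.sys b).it_mono n x (by rw [zero_add]; push_cast; exact (Int.lt_floor_add_one w).le)
  rw [(A.sys a).it_int (per a)] at h1
  rw [(A.sys b).it_int (per b)] at h2
  push_cast at h2
  rw [dif]
  linarith

theorem dif_nonneg (per : ∀ s x y, A.F s x (y + 1) = A.F s x y + 1) {a b : ℝ} (hab : a ≤ b)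
    (n : ℕ) (x : X) : 0 ≤ A.dif a b n x := by
  have := A.gap0 per hab n x 0
  rw [dif]; linarith

theorem K_nonneg {a b : ℝ} (hab : a ≤ b) (x : X) : 0 ≤ A.K * (b - a) := by
  have h1 := A.upper a b x 0 hab
  have h2 := A.F_le hab x 0
  linarith

theorem dif_le (per : ∀ s x y, A.F s x (y + 1) = A.F s x y + 1) {a b : ℝ} (hab : a ≤ b) (n : ℕ)
    (x : X) : A.dif a b n x ≤ n * (⌈A.K * (b - a)⌉ : ℝ) := by
  have h : ∀ n : ℕ, (A.sys b).it n x 0 ≤ (A.sys a).it n x 0 + ((n * ⌈A.K * (b - a)⌉ : ℤ) : ℝ) := by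
    intro n
    induction n with
    | zero => simp
    | succ n ih =>
      rw [Sys.it_succ, Sys.it_succ, sys_T, sys_T]
      have h1 := ((A.sys b).strict (A.T^[n] x)).monotone ih
      rw [(A.sys b).F_int (per b)] at h1
      have h2 := Int.le_ceil (A.K * (b - a))
      have h3 := A.upper a b (A.T^[n] x) ((A.sys a).it n x 0) hab
      rw [sys_F, sys_F] at h1 ⊢
      push_cast at h1 ⊢
      linarith
  have := h n
  push_cast at this
  rw [dif]; linarith

/-- the number of visits in `{dif ≥ 2}` bounds the difference from below -/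
theorem dif_count (per : ∀ s x y, A.F s x (y + 1) = A.F s x y + 1) {a b : ℝ} (hab : a ≤ b)
    (n N : ℕ) (x : X) :
    ∑ i ∈ Finset.range N, {z | 2 ≤ A.dif a b n z}.indicator (fun _ => (1 : ℝ)) (A.T^[i * n] x) ≤
      A.dif a b (N * n) x := by
  classical
  have h : ∀ N : ℕ, ∃ k : ℤ, ∑ i ∈ Finset.range N,
      {z | 2 ≤ A.dif a b n z}.indicator (fun _ => (1 : ℝ)) (A.T^[i * n] x) = k ∧
      (A.sys a).it (N * n) x 0 + k ≤ (A.sys b).it (N * n) x 0 := by
    intro N
    induction N with
    | zero => exact ⟨0, by simp, by simp⟩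
    | succ N ih =>
      obtain ⟨k, hk1, hk2⟩ := ih
      rw [Nat.succ_mul, Sys.it_add, Sys.it_add, Finset.sum_range_succ, hk1, sys_T, sys_T]
      by_cases hx : A.T^[N * n] x ∈ {z | 2 ≤ A.dif a b n z}
      · refine ⟨k + 1, by rw [indicator_of_mem hx]; push_cast; ring, ?_⟩
        have h1 := (A.sys b).it_mono n (A.T^[N * n] x) hk2
        rw [(A.sys b).it_int (per b)] at h1
        have h2 := A.dif_lower per a b n (A.T^[N * n] x) ((A.sys a).it (N * n) x 0)
        have h3 : 2 ≤ A.dif a b n (A.T^[N * n] x) := hx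
        push_cast
        linarith
      · refine ⟨k, by rw [indicator_of_notMem hx, add_zero], ?_⟩
        exact A.gap per hab k n _ hk2
  obtain ⟨k, h1, h2⟩ := h N
  rw [h1, dif]
  linarith

/-- equal rotation numbers -/
def Locked (m : Measure X) (a b : ℝ) : Prop :=
  ∀ᵐ x ∂m, Tendsto (fun n : ℕ => A.dif a b n x / n) atTop (𝓝 0)

/-- **Bounded differences.** -/
theorem Locked.bdd [IsProbabilityMeasure m] (hT : MeasurePreserving A.T m m)
    (per : ∀ s x y, A.F s x (y + 1) = A.F s x y + 1) {a b : ℝ} (hab : a ≤ b) (h : A.Locked m a b) :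
    ∀ᵐ x ∂m, ∀ n, A.dif a b n x < 2 := by
  rw [ae_all_iff]
  intro n
  rcases Nat.eq_zero_or_pos n with rfl | hn
  · refine Eventually.of_forall fun x => ?_
    simp [dif]
  set E : Set X := {z | 2 ≤ A.dif a b n z} with hE
  have mE : MeasurableSet E := measurableSet_le measurable_const (A.dif_meas a b n)
  have hX : Nonempty X := by
    by_contra hcon
    rw [not_nonempty_iff] at hcon
    have : m univ = 0 := by rw [Set.univ_eq_empty_iff.2 hcon, measure_empty]
    rw [measure_univ] at this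
    exact one_ne_zero this
  have hC : 0 ≤ (⌈A.K * (b - a)⌉ : ℝ) := by
    obtain ⟨x⟩ := hX
    exact_mod_cast Int.ceil_nonneg (A.K_nonneg hab x)
  have hn' : (0 : ℝ) < n := by exact_mod_cast hn
  have h1 : Tendsto (fun N : ℕ => ∫ x, A.dif a b ((N + 1) * n) x / (((N + 1) * n : ℕ) : ℝ) ∂m)
      atTop (𝓝 (∫ _, (0 : ℝ) ∂m)) := by
    refine tendsto_integral_of_dominated_convergence (fun _ => (⌈A.K * (b - a)⌉ : ℝ)) ?_ ?_ ?_ ?_
    · exact fun N => ((A.dif_meas a b _).div_const _).aestronglyMeasurable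
    · exact integrable_const _
    · intro N
      refine Eventually.of_forall fun x => ?_
      have hp : (0 : ℝ) < (((N + 1) * n : ℕ) : ℝ) := by
        exact_mod_cast Nat.mul_pos (Nat.succ_pos N) hn
      rw [Real.norm_eq_abs, abs_of_nonneg (div_nonneg (A.dif_nonneg per hab _ _) hp.le),
        div_le_iff₀ hp]
      have := A.dif_le per hab ((N + 1) * n) x
      linarith [mul_comm (⌈A.K * (b - a)⌉ : ℝ) (((N + 1) * n : ℕ) : ℝ)]
    · filter_upwards [h] with x hx
      refine hx.comp (tendsto_atTop_mono (fun N => ?_) tendsto_id)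
      show N ≤ (N + 1) * n
      nlinarith
  rw [integral_zero] at h1
  have h2 : ∀ N : ℕ, m.real E / n ≤ ∫ x, A.dif a b ((N + 1) * n) x / (((N + 1) * n : ℕ) : ℝ) ∂m := by
    intro N
    have hp : (0 : ℝ) < (((N + 1) * n : ℕ) : ℝ) := by
      exact_mod_cast Nat.mul_pos (Nat.succ_pos N) hn
    have hint : ∀ i : ℕ, Integrable (fun x => E.indicator (fun _ => (1 : ℝ)) (A.T^[i * n] x)) m := by
      intro i
      refine Integrable.of_bound (C := 1) ?_ ?_
      · exact ((measurable_const.indicator mE).comp (A.T.measurable.iterate _)).aestronglyMeasurable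
      · refine Eventually.of_forall fun x => ?_
        by_cases hx : A.T^[i * n] x ∈ E
        · simp [indicator_of_mem hx]
        · simp [indicator_of_notMem hx]
    have h3 : ∫ x, ∑ i ∈ Finset.range (N + 1),
        E.indicator (fun _ => (1 : ℝ)) (A.T^[i * n] x) ∂m = ((N : ℝ) + 1) * m.real E := by
      rw [integral_finsetSum _ fun i _ => hint i]
      have h4 : ∀ i ∈ Finset.range (N + 1),
          ∫ x, E.indicator (fun _ => (1 : ℝ)) (A.T^[i * n] x) ∂m = m.real E := by
        intro i _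
        have hTi := hT.iterate (i * n)
        have h5 : ∫ x, E.indicator (fun _ => (1 : ℝ)) x ∂(m.map A.T^[i * n]) =
            ∫ x, E.indicator (fun _ => (1 : ℝ)) (A.T^[i * n] x) ∂m :=
          integral_map hTi.measurable.aemeasurable
            (measurable_const.indicator mE).aestronglyMeasurable
        rw [← h5, hTi.map_eq, integral_indicator_const _ mE]
        simp
      rw [Finset.sum_congr rfl h4, Finset.sum_const, Finset.card_range, nsmul_eq_mul]
      push_cast; ring
    have h6 : m.real E / n = ∫ x, (∑ i ∈ Finset.range (N + 1),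
        E.indicator (fun _ => (1 : ℝ)) (A.T^[i * n] x)) / (((N + 1) * n : ℕ) : ℝ) ∂m := by
      rw [integral_div, h3]
      push_cast
      field_simp
    rw [h6]
    refine integral_mono ((integrable_finsetSum _ fun i _ => hint i).div_const _) ?_ ?_
    · refine Integrable.div_const ?_ _
      refine Integrable.of_bound (C := (((N + 1) * n : ℕ) : ℝ) * ⌈A.K * (b - a)⌉) (A.dif_meas a b _).aestronglyMeasurable ?_
      refine Eventually.of_forall fun x => ?_
      rw [Real.norm_eq_abs, abs_of_nonneg (A.dif_nonneg per hab _ _)]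
      exact A.dif_le per hab _ x
    · intro x
      exact div_le_div_of_nonneg_right (A.dif_count per hab n (N + 1) x) hp.le
  have h7 : m.real E / n ≤ 0 := ge_of_tendsto' h1 h2
  have h8 : m.real E = 0 := by
    have h9 : 0 ≤ m.real E := measureReal_nonneg
    have h10 : m.real E ≤ 0 := by
      by_contra hcon
      exact absurd (div_pos (not_le.1 hcon) hn') (not_lt.2 h7)
    linarith
  have h9 : m E = 0 := by
    rwa [measureReal_eq_zero_iff] at h8
  rw [ae_iff]
  refine measure_mono_null ?_ h9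
  intro x hx
  exact not_lt.1 hx

/-- approximate wave operators -/
noncomputable def wv (a s : ℝ) (n : ℕ) (x : X) (y : ℝ) : ℝ :=
  (A.sys s).it n (A.T.symm^[n] x) ((A.sys a).inv.it n x y)

theorem wv_zero (a s : ℝ) (x : X) (y : ℝ) : A.wv a s 0 x y = y := rfl

theorem wv_succ (a s : ℝ) (n : ℕ) (x : X) (y : ℝ) :
    A.wv a s (n + 1) x y = (A.sys s).it n (A.T.symm^[n] x)
      (A.F s (A.T.symm^[n + 1] x) ((A.sys a).inv.it (n + 1) x y)) := by
  rw [wv, Sys.it_succ', sys_T, Function.iterate_succ_apply' A.T.symm, A.T.apply_symm_apply]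
  rfl

theorem wv_arg (a : ℝ) (n : ℕ) (x : X) (y : ℝ) :
    A.F a (A.T.symm^[n + 1] x) ((A.sys a).inv.it (n + 1) x y) = (A.sys a).inv.it n x y := by
  have h2 := (A.sys a).F_symm (A.T.symm (A.T.symm^[n] x)) ((A.sys a).inv.it n x y)
  rw [Sys.it_succ, Sys.inv_T, Sys.inv_F, sys_T, Function.iterate_succ_apply' A.T.symm]
  rw [sys_F] at h2
  exact h2

theorem wv_mono {a s : ℝ} (has : a ≤ s) (x : X) (y : ℝ) : Monotone fun n => A.wv a s n x y := by
  refine monotone_nat_of_le_succ fun n => ?_
  rw [wv_succ, wv]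
  refine (A.sys s).it_mono n _ ?_
  conv_lhs => rw [← A.wv_arg a n x y]
  exact A.F_le has _ _

theorem wv_step (a s : ℝ) (n : ℕ) (x : X) (y : ℝ) :
    A.wv a s (n + 1) (A.T x) (A.F a x y) = A.F s x (A.wv a s n x y) := by
  have h1 : (A.sys a).inv.it (n + 1) (A.T x) (A.F a x y) = (A.sys a).inv.it n x y := by
    rw [Sys.it_succ', Sys.inv_T, Sys.inv_F, sys_T, A.T.symm_apply_apply]
    congr 1
    exact (A.sys a).symm_F x y
  have h2 : A.T.symm^[n + 1] (A.T x) = A.T.symm^[n] x := by
    rw [Function.iterate_succ_apply, A.T.symm_apply_apply]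
  rw [wv, h1, h2, Sys.it_succ, sys_F, sys_T]
  have h3 : A.T^[n] (A.T.symm^[n] x) = x :=
    (Function.LeftInverse.iterate (fun z => A.T.apply_symm_apply z) n) x
  rw [h3]
  rfl

theorem wv_int (per : ∀ s x y, A.F s x (y + 1) = A.F s x y + 1) (a s : ℝ) (n : ℕ) (x : X) (y : ℝ)
    (k : ℤ) : A.wv a s n x (y + k) = A.wv a s n x y + k := by
  rw [wv, (A.sys a).inv.it_int ((A.sys a).inv_per (per a)),
    (A.sys s).it_int (per s)]
  rfl

theorem wv_le (per : ∀ s x y, A.F s x (y + 1) = A.F s x y + 1) {a b s : ℝ} (hsb : s ≤ b)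
    (n : ℕ) (x : X) (y : ℝ) : A.wv a s n x y ≤ y + (A.dif a b n (A.T.symm^[n] x) + 1) := by
  have h1 := A.gap0 per hsb n (A.T.symm^[n] x) ((A.sys a).inv.it n x y)
  have h2 := A.dif_upper per a b n (A.T.symm^[n] x) ((A.sys a).inv.it n x y)
  have h3 := (A.sys a).it_inv n x y
  rw [sys_T] at h3
  rw [h3] at h2
  rw [wv]
  linarith

/-- the wave operator -/
noncomputable def wave (a s : ℝ) (x : X) (y : ℝ) : ℝ := ⨆ n, A.wv a s n x y

theorem wv_meas (a s : ℝ) (n : ℕ) : Measurable (Function.uncurry (A.wv a s n)) := by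
  have h0 : ∀ (R : Sys X) (k : ℕ), Measurable (Function.uncurry (R.it k)) := by
    intro R k
    induction k with
    | zero => exact measurable_snd
    | succ k ih =>
      exact R.mF.comp (((R.T.measurable.iterate k).comp measurable_fst).prodMk ih)
  exact (h0 (A.sys s) n).comp (((A.T.symm.measurable.iterate n).comp measurable_fst).prodMk
    (h0 (A.sys a).inv n))

theorem wave_meas (a s : ℝ) : Measurable (Function.uncurry (A.wave a s)) := by
  have : Function.uncurry (A.wave a s) = fun p => ⨆ n, Function.uncurry (A.wv a s n) p := rfl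
  rw [this]
  exact Measurable.iSup fun n => A.wv_meas a s n

/-- **Wave operators.** -/
theorem wave_spec [IsProbabilityMeasure m] (erg : Ergodic A.T m)
    (per : ∀ s x y, A.F s x (y + 1) = A.F s x y + 1) {a b s : ℝ} (has : a ≤ s) (hsb : s ≤ b)
    (h : A.Locked m a b) :
    ∀ᵐ x ∂m, ∀ y : ℝ, A.F s x (A.wave a s x y) = A.wave a s (A.T x) (A.F a x y) ∧
      ∀ k : ℤ, A.wave a s x (y + k) = A.wave a s x y + k := by
  have hb := h.bdd A erg.toMeasurePreserving per (has.trans hsb)
  have hsymm : MeasurePreserving A.T.symm m m := erg.toMeasurePreserving.symm A.T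
  have hb2 : ∀ᵐ x ∂m, ∀ n, A.dif a b n (A.T.symm^[n] x) < 2 := by
    rw [ae_all_iff]
    intro n
    filter_upwards [(hsymm.iterate n).quasiMeasurePreserving.ae hb] with x hx
    exact hx n
  have hlim : ∀ x, (∀ n, A.dif a b n (A.T.symm^[n] x) < 2) → ∀ y,
      Tendsto (fun n => A.wv a s n x y) atTop (𝓝 (A.wave a s x y)) := by
    intro x hx y
    refine tendsto_atTop_ciSup (A.wv_mono has x y) ⟨y + 3, ?_⟩
    rintro _ ⟨n, rfl⟩
    have := A.wv_le per hsb n x y (a := a)
    have := hx n
    show A.wv a s n x y ≤ y + 3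
    linarith
  filter_upwards [hb2, erg.toMeasurePreserving.quasiMeasurePreserving.ae hb2] with x h1 h2 y
  refine ⟨?_, ?_⟩
  · have l1 := (hlim (A.T x) h2 (A.F a x y)).comp (tendsto_add_atTop_nat 1)
    have l2 : Tendsto (fun n => A.F s x (A.wv a s n x y)) atTop
        (𝓝 (A.F s x (A.wave a s x y))) :=
      (((A.sys s).cont x).tendsto _).comp (hlim x h1 y)
    refine tendsto_nhds_unique l2 (l1.congr fun n => ?_)
    exact A.wv_step a s n x y
  · intro k
    have l1 := hlim x h1 (y + k)
    have l2 := (hlim x h1 y).add_const (k : ℝ)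
    refine tendsto_nhds_unique l1 (l2.congr fun n => ?_)
    exact (A.wv_int per a s n x y k).symm

end Fam

end Pool.Agent.V8H61.MF
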